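import Pool.Agent.H89.NVK.ORE

set_option autoImplicit false
set_option linter.unusedSectionVars false

open MeasureTheory Set Filter NumberField NumberField.InfinitePlace
open Pool.Agent.H65.CM4 Pool.Agent.H61.NVK Pool.Agent.H89.NV
open scoped Real

namespace Pool.Agent.H89.NVK

/-- an abstract partition argument -/
theorem part {X : Type} (s : Setoid X) (t V : X → ℝ) (hsT : Summable t)
    (hclass : ∀ x₀ : X, ∃ N : ℕ, 1 ≤ N ∧ (N : ℝ) * ∑' x : {x : X // s x₀ x}, t x.1 = V x₀ ^ 2)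
    (ι : Type) [Fintype ι] (x : ι → X)
    (hone : ∀ i, ∑' y : {y : X // s (x i) y}, t y.1 = V (x i) ^ 2)
    (hinj : ∀ i j, s (x i) (x j) → i = j) : ∑ i, V (x i) ^ 2 ≤ ∑' y, t y := by
  classical
  let mkq : X → Quotient s := Quotient.mk s
  have hE : ∀ x₀ : X, ∑' x : {x : X // mkq x = mkq x₀}, t x.1 =
      ∑' x : {x : X // s x₀ x}, t x.1 := by
    intro x₀
    let E : {x : X // mkq x = mkq x₀} ≃ {x : X // s x₀ x} :=
      { toFun := fun x => ⟨x.1, (Quotient.exact x.2.symm : s x₀ x.1)⟩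
        invFun := fun x => ⟨x.1, (Quotient.sound x.2).symm⟩
        left_inv := fun x => rfl
        right_inv := fun x => rfl }
    exact E.tsum_eq (fun x : {x : X // s x₀ x} => t x.1)
  have e2 := (Equiv.sigmaFiberEquiv mkq).tsum_eq t
  have hs2 : Summable (fun σ : (Σ κ, {x : X // mkq x = κ}) =>
      t ((Equiv.sigmaFiberEquiv mkq) σ)) := (Equiv.sigmaFiberEquiv mkq).summable_iff.mpr hsT
  have e3 : ∑' x, t x = ∑' κ : Quotient s, ∑' x : {x : X // mkq x = κ}, t x.1 := by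
    rw [← e2, hs2.tsum_sigma]
    rfl
  have hs3 : Summable (fun κ : Quotient s =>
      ∑' x : {x : X // mkq x = κ}, t x.1) := hs2.sigma
  have hnn : ∀ κ : Quotient s, 0 ≤ ∑' x : {x : X // mkq x = κ}, t x.1 := by
    intro κ
    obtain ⟨x₀, rfl⟩ := Quotient.exists_rep κ
    obtain ⟨N, hN1, hN3⟩ := hclass x₀
    have hN0 : (0 : ℝ) < N := by exact_mod_cast hN1
    have h4 : 0 ≤ (N : ℝ) * ∑' x : {x : X // s x₀ x}, t x.1 := by
      rw [hN3]; positivity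
    have h5 := hE x₀
    change 0 ≤ ∑' x : {x : X // mkq x = mkq x₀}, t x.1
    rw [h5]
    exact nonneg_of_mul_nonneg_right h4 hN0
  have hinj' : Function.Injective (fun i => mkq (x i)) := by
    intro i j hij
    exact hinj i j (Quotient.exact hij)
  rw [e3]
  let g : Quotient s → ℝ := fun κ => ∑' y : {y : X // mkq y = κ}, t y.1
  have e4 : ∑ κ ∈ Finset.univ.image (fun i => mkq (x i)), g κ = ∑ i, g (mkq (x i)) :=
    Finset.sum_image (f := g) (fun i _ j _ hij => hinj' hij)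
  have e5 : ∑ i, V (x i) ^ 2 = ∑ i, g (mkq (x i)) :=
    Finset.sum_congr rfl fun i _ => ((hE (x i)).trans (hone i)).symm
  rw [e5, ← e4]
  exact Summable.sum_le_tsum (f := g) _ (fun κ _ => hnn κ) hs3

section

variable {k : Type} [Field k] [NumberField k] [IsTotallyReal k]
variable {D : 𝓞 k} {K : Type} [Field K] [Algebra k K] (h : CK D K) {f : Ideal (𝓞 k)}

/-- the relation of the forms of the index set -/
def rel (f : Ideal (𝓞 k)) : Setoid (XX f D) where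
  r x x' := Hq2 (Lam h f x.1.1.2 x.1.2) (Lam h f x'.1.1.2 x'.1.2)
  iseqv := ⟨fun _ => Hq2.refl _, fun e => e.symm, fun e e' => e.trans e'⟩

/-- the terms of the unfolded sum -/
noncomputable def tt (f : Ideal (𝓞 k)) (w : VV k) (ω : WW k) (x : XX f D) : ℝ :=
  ω x.1.1.1 x.1.1.2 x.1.2 (q4 (x.1.2 ^ 2 + D)) * Vs f w x.1.1.2 x.1.2

theorem VseH (hVSE : T_VSE k) (hD : tp D) (hf : f ≠ ⊥) (w : VV k) (hw : VF h f w)
    (A A' : Ideal (𝓞 k)) (b b' : 𝓞 k) (hF : Fm f D A b) (hF' : Fm f D A' b')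
    (hq : Hq2 (Lam h f A b) (Lam h f A' b')) : Vs f w A b = Vs f w A' b' := by
  obtain ⟨I, J, g, hI, hJ, hg, hh⟩ := hq
  exact hVSE D hD K h f w hf hw A A' I J b b' g hF hF' hI hJ hg hh

theorem clsum (hIDL : T_IDL k) (hLMB : T_LMB k) (hSTB : T_STB k)
    (hPAR : T_PAR k) (hIXN : T_IXN k) (hVSE : T_VSE k) (hGRW : T_GRW k)
    (hTRV : NV.T_TRV k) (hD : tp D) (hf : f ≠ ⊥) (w : VV k) (ω : WW k) (hw : VF h f w)
    (hω : ∀ (e A c : Ideal (𝓞 k)) (b t : 𝓞 k), e ≠ ⊥ → Fm f D A b → t ≠ 0 →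
      Ideal.span {t} = c * (e * (A * f)) → ω e A b (q4 (b ^ 2 + D)) = w c A b (t, 0))
    (x₀ : XX f D) : ∃ N : ℕ, 1 ≤ N ∧
      ((∀ (I J : Ideal (𝓞 k)) (g : K), I ≠ ⊥ → J ≠ ⊥ → g ≠ 0 →
        hom J g (Lam h f x₀.1.1.2 x₀.1.2) = hom I 1 (Lam h f x₀.1.1.2 x₀.1.2) → h.im g = 0) →
        N = 1) ∧
      (N : ℝ) * ∑' x : {x : XX f D // (rel h f) x₀ x}, tt f w ω x.1 =
        Vs f w x₀.1.1.2 x₀.1.2 ^ 2 := by
  have hF0 := XX_Fm x₀.2
  obtain ⟨N, hN1, hN2, hN3⟩ := core h hIDL hLMB hSTB hPAR hIXN hGRW hTRV hD hf hF0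
    ⟨x₀.1, x₀.2, Hq2.refl _⟩ w ω hw hω
  refine ⟨N, hN1, hN2, ?_⟩
  have e1 : ∑' x : {x : XX f D // (rel h f) x₀ x}, tt f w ω x.1 =
      (∑' x : XC h f x₀.1.1.2 x₀.1.2, ω x.1.1.1 x.1.1.2 x.1.2 (q4 (x.1.2 ^ 2 + D))) *
        Vs f w x₀.1.1.2 x₀.1.2 := by
    rw [← tsum_mul_right]
    let E : {x : XX f D // (rel h f) x₀ x} ≃ XC h f x₀.1.1.2 x₀.1.2 :=
      { toFun := fun x => ⟨x.1.1, x.1.2, x.2⟩
        invFun := fun x => ⟨⟨x.1, x.2.1⟩, x.2.2⟩
        left_inv := fun x => rfl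
        right_inv := fun x => rfl }
    rw [← E.tsum_eq]
    refine tsum_congr fun x => ?_
    have h3 := VseH h hVSE hD hf w hw _ _ _ _ hF0 (XX_Fm x.1.2) x.2
    unfold tt
    rw [← h3]
    rfl
  rw [e1, ← mul_assoc, ← hN3, pow_two]

end

section

variable {k : Type} [Field k] [NumberField k] [IsTotallyReal k]

theorem exrep (hRSB : T_RSB k) (hTRV : NV.T_TRV k) {D : 𝓞 k} {K : Type} [Field K] [Algebra k K]
    (h : CK D K) {f : Ideal (𝓞 k)} (hf : f ≠ ⊥) (A : Ideal (𝓞 k)) (b : 𝓞 k) (hF : Fm f D A b) :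
    ∃ b₁ : 𝓞 k, b₁ ∈ bs f A D ∧ Lam h f A b₁ = Lam h f A b ∧ Fm f D A b₁ := by
  classical
  have hAf0 : ni k 2 * (A * f) ≠ ⊥ := by
    rw [ni]
    intro h0
    rcases Ideal.mul_eq_bot.mp h0 with h9 | h9
    · rw [Ideal.span_singleton_eq_bot] at h9
      norm_num at h9
    · rcases Ideal.mul_eq_bot.mp h9 with h9 | h9
      · exact hF.ne h9
      · exact hf h9
  obtain ⟨b₁, ⟨hb₁, hbb⟩, -⟩ := (hRSB.1 _ hAf0).1 b
  rw [ni] at hbb
  obtain ⟨x, hx, hxb⟩ := Ideal.mem_span_singleton_mul.mp hbb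
  have hb₁' : b₁ = b + 2 * (-x) := by
    have : ((2 : ℕ) : 𝓞 k) * x = b - b₁ := hxb
    push_cast at this
    linear_combination this
  have hxm : -x ∈ A * f := Ideal.neg_mem_iff _ |>.mpr hx
  have hF1 : Fm f D A b₁ := by
    rw [hb₁']
    exact ((hTRV f A D b hf hF).2.2.2.1 _ hxm).1
  have hL : Lam h f A b₁ = Lam h f A b := by
    rw [hb₁', Lam_congr h f A b _ hxm]
  refine ⟨b₁, ?_, hL, hF1⟩
  unfold bs
  exact Finset.mem_filter.mpr ⟨hb₁, hF1.mem, hF1.dis⟩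

theorem pf_ORB (hRSB : T_RSB k) (hIDL : T_IDL k) (hLMB : T_LMB k) (hSTB : T_STB k)
    (hPAR : T_PAR k) (hIXN : T_IXN k) (hVSE : T_VSE k) (hGRW : T_GRW k) (hSMM : T_SMM k)
    (hTRV : NV.T_TRV k) (hEMB : T_EMB k) : T_ORB k := by
  intro D hD K _ _ h f w ω hf _ hw hω0 hω ι _ A b hF hI
  have hωb := om_bd h hIDL hEMB hf w ω hw hω
  obtain ⟨hsT, hUS⟩ := US_eq (D := D) hRSB hSMM hf ω (fun A b _ => Vs f w A b) hω0 hωb
    (Vs_bd h hGRW hD hf w hw)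
  rw [hUS]
  have hrep := fun i => exrep hRSB hTRV h hf (A i) (b i) (hF i)
  choose b₁ hb₁ hbL hbF using hrep
  let x : ι → XX f D := fun i => ⟨((⊤, A i), b₁ i), top_ne_bot, (hF i).ne, hb₁ i⟩
  have hxV : ∀ i, Vs f w (A i) (b i) = Vs f w (x i).1.1.2 (x i).1.2 := by
    intro i
    refine VseH h hVSE hD hf w hw _ _ _ _ (hF i) (hbF i) ?_
    change Hq2 (Lam h f (A i) (b i)) (Lam h f (A i) (b₁ i))
    rw [hbL]
    exact Hq2.refl _
  have hmain := part (rel h f) (tt f w ω) (fun x => Vs f w x.1.1.2 x.1.2) hsT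
    (fun x₀ => by
      obtain ⟨N, hN1, -, hN3⟩ := clsum h hIDL hLMB hSTB hPAR hIXN hVSE hGRW hTRV hD hf w ω hw hω x₀
      exact ⟨N, hN1, hN3⟩) ι x
    (fun i => by
      obtain ⟨N, hN1, hN2, hN3⟩ :=
        clsum h hIDL hLMB hSTB hPAR hIXN hVSE hGRW hTRV hD hf w ω hw hω (x i)
      have hN : N = 1 := by
        apply hN2
        intro I J g hI' hJ' hg' hh
        change hom J g (Lam h f (A i) (b₁ i)) = hom I 1 (Lam h f (A i) (b₁ i)) at hh
        rw [hbL] at hh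
        exact (hI i i I J g hI' hJ' hg' hh).2
      rw [hN, Nat.cast_one, one_mul] at hN3
      exact hN3)
    (fun i j hij => by
      have h6 : Hq2 (Lam h f (A i) (b₁ i)) (Lam h f (A j) (b₁ j)) := hij
      rw [hbL, hbL] at h6
      obtain ⟨I, J, g, hI', hJ', hg', hh⟩ := h6
      exact (hI i j I J g hI' hJ' hg' hh).1)
  refine le_trans (le_of_eq ?_) hmain
  exact Finset.sum_congr rfl fun i _ => by rw [hxV]

end

end Pool.Agent.H89.NVK
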