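import Pool.Agent.H24.NVK.ADJ
import Pool.Agent.H41.NVK.AUT
import Pool.Agent.H42.NVK.BMD
import Pool.Agent.H66.NVK.CKB
import Pool.Agent.H60.NVK.EXK
import Pool.Agent.H26.NVK.FIB
import Pool.Agent.H49.NVK.GRW
import Pool.Agent.H86.NVK.HK2
import Pool.Agent.H2.NVK.HKZ
import Pool.Agent.H64.NVK.HK1
import Pool.Agent.H60.NVK.IDL
import Pool.Agent.H2.NVK.IXN
import Pool.Agent.H49.NVK.LMB
import Pool.Agent.H33.NVK.NFM
import Pool.Agent.H71.NVK.NU1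
import Pool.Agent.H74.NVK.NUV
import Pool.Agent.H89.NVK.ORB
import Pool.Agent.H75.NVK.PZ1
import Pool.Agent.H60.NVK.RSB
import Pool.Agent.H86.NVK.SMM
import Pool.Agent.H60.NVK.STB
import Pool.Agent.H74.NVK.TPB
import Pool.Agent.H33.NVK.TRV
import Pool.Agent.H80.NVK.UNF
import Pool.Agent.H7.NVK.VSE
import Pool.Agent.H75.NVK.WC1
import Pool.Agent.H24.NVK.WC2
import Pool.Agent.H24.NVK.WCC
import Pool.Agent.H65.CM4.AsmA

/-!
# Part U: the unfolded second moment, assembly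
-/

set_option autoImplicit false

open NumberField
open Pool.Agent.H65.CM4 Pool.Agent.H61.NVK Pool.Agent.H89.NV

namespace Pool.Agent.H89.NVK

/-- the results of part U -/
structure ResU (k : Type) [Field k] [NumberField k] [IsTotallyReal k] : Prop where
  unf : T_UNF k
  pz1 : T_PZ1 k
  nfm : T_NFM k
  aut : T_AUT k
  rsb : T_RSB k
  idl : T_IDL k
  bmd : T_BMD k
  trv : NV.T_TRV k
  fib : T_FIB k
  tpb : T_TPB k
  hkz : T_HKZ k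
  hk2 : T_HK2 k
  grw : T_GRW k
  ckb : T_CKB k
  lmb : T_LMB k
  stb : T_STB k
  par : T_PAR k
  ixn : T_IXN k
  nuv : T_NUV k
  vse : T_VSE k
  exk : T_EXK k
  smm : T_SMM k

theorem partU (hEBD : T_EBD) (hZFE : T_ZFE) (hVKF : T_VKF) (k : Type) [Field k] [NumberField k]
    [IsTotallyReal k] : ResU k := by
  have hEMB : T_EMB k := Pool.Agent.H65.CM4.a_EMB k
  have hRSB : T_RSB k := Pool.Agent.H60.NVK.pf_RSB k
  have hIDL : T_IDL k := Pool.Agent.H60.NVK.pf_IDL k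
  have hBMD : T_BMD k := Pool.Agent.H42.NVK.pf_BMD k
  have hTRV : NV.T_TRV k := Pool.Agent.H33.NVK.pf_TRV k hRSB hIDL
  have hFIB : T_FIB k := Pool.Agent.H26.NVK.pf_FIB k hRSB hIDL hTRV
  have hSMM : T_SMM k := Pool.Agent.H86.NVK.pf_SMM k hRSB
  have hADJ : T_ADJ k := Pool.Agent.H24.NVK.pf_ADJ k hRSB hIDL hTRV hFIB hSMM
  have hTPB : T_TPB k := Pool.Agent.H74.NVK.pf_TPB k hRSB hIDL hTRV hSMM
  have hWC1 : T_WC1 k := Pool.Agent.H75.NVK.pf_WC1 k hRSB hIDL hTRV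
  have hWC2 : T_WC2 k := Pool.Agent.H24.NVK.pf_WC2 k hRSB hIDL hTRV
  have hWC : T_WC k := Pool.Agent.H24.NVK.pf_WC k hIDL hTRV hWC1 hWC2
  have hGRW : T_GRW k := Pool.Agent.H49.NVK_GRW.pf_GRW k hEBD hZFE
  have hHK2 : T_HK2 k := Pool.Agent.H86.NVK.pf_HK2 k hRSB hIDL hTRV
  have hHKZ : T_HKZ k := Pool.Agent.H2.NVK.pf_HKZ k hRSB hIDL hTRV hGRW
    (Pool.Agent.H64.NVK.pf_HK1 hRSB hIDL hTRV hGRW) hHK2
  have hCKB : T_CKB k := Pool.Agent.H66.NVK.pf_CKB k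
  have hLMB : T_LMB k := Pool.Agent.H49.NVK.pf_LMB k hCKB
  have hSTB : T_STB k := Pool.Agent.H60.NVK.pf_STB k hBMD
  have hPAR : T_PAR k := Pool.Agent.H89.NVK.pf_PAR hRSB hIDL hLMB
  have hIXN : T_IXN k := Pool.Agent.H2.NVK.pf_IXN k hIDL hCKB hLMB
  have hNU1 : T_NU1 k := Pool.Agent.H71.NVK.pf_NU1 k hRSB hIDL hCKB hLMB hSTB hBMD
  have hNUV : T_NUV k := Pool.Agent.H74.NVK.pf_NUV k hRSB hIDL hCKB hLMB hSTB hNU1
  have hVSE : T_VSE k := Pool.Agent.H7.NVK.pf_VSE k hIDL hCKB hLMB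
  have hORB : T_ORB k := Pool.Agent.H89.NVK.pf_ORB hRSB hIDL hLMB hSTB hPAR hIXN hVSE hGRW hSMM
    hTRV hEMB
  have hDV : Pool.Agent.H80.NVK.DV k := fun B =>
    let ⟨C, hC, h⟩ := (hVKF k).2.2.2 B; ⟨C, hC, fun x hx => (h x hx).1⟩
  have hUNF : T_UNF k := Pool.Agent.H80.NVK.pf_UNF hRSB hIDL hTRV hADJ hTPB hWC hHKZ hGRW hIXN
    hNUV hVSE hORB hHK2 hLMB hDV
  exact ⟨hUNF, Pool.Agent.H75.NVK.pf_PZ1 k hRSB hTRV hHKZ hGRW hVKF,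
    Pool.Agent.H33.NVK.pf_NFM k hPAR, Pool.Agent.H41.NVK.pf_AUT k hIDL hCKB hIXN, hRSB, hIDL, hBMD,
    hTRV, hFIB, hTPB, hHKZ, hHK2, hGRW, hCKB, hLMB, hSTB, hPAR, hIXN, hNUV, hVSE,
    Pool.Agent.H60.NVK.pf_EXK k, hSMM⟩

end Pool.Agent.H89.NVK
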