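import Pool.Agent.H89.NV.TU2

set_option autoImplicit false
set_option linter.unusedSectionVars false

open MeasureTheory Set Filter NumberField NumberField.InfinitePlace
open Pool.Agent.H65.CM4 Pool.Agent.H61.NVK Pool.Agent.H89.NV
open scoped Real

namespace Pool.Agent.H89.NVK

section Basic

variable {k : Type} [Field k] [NumberField k] [IsTotallyReal k] {D : 𝓞 k} {K : Type} [Field K]
  [Algebra k K] (h : CK D K)

theorem hom_one (J : Ideal (𝓞 k)) (L : Submodule (𝓞 k) K) : hom J (1 : K) L = J • L := by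
  unfold hom
  have : LinearMap.mulLeft (𝓞 k) (1 : K) = LinearMap.id := by
    ext x
    simp
  rw [this, Submodule.map_id]

theorem hom_top (L : Submodule (𝓞 k) K) : hom (⊤ : Ideal (𝓞 k)) (1 : K) L = L := by
  rw [hom_one, Submodule.top_smul]

theorem am (x : 𝓞 k) : algebraMap (𝓞 k) K x = algebraMap k K (x : k) :=
  IsScalarTower.algebraMap_apply (𝓞 k) k K x

theorem smK (r : 𝓞 k) (x : K) : r • x = algebraMap k K (r : k) * x := by
  rw [Algebra.smul_def, am]

theorem re_am (x : k) : h.re (algebraMap k K x) = x := by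
  have : algebraMap k K x = x • (1 : K) := by rw [Algebra.smul_def, mul_one]
  rw [this, map_smul, h.re1, smul_eq_mul, mul_one]

theorem im_am (x : k) : h.im (algebraMap k K x) = 0 := by
  have : algebraMap k K x = x • (1 : K) := by rw [Algebra.smul_def, mul_one]
  rw [this, map_smul, h.im1, smul_zero]

theorem re_mul_am (x : k) (y : K) : h.re (algebraMap k K x * y) = x * h.re y := by
  rw [← Algebra.smul_def, map_smul, smul_eq_mul]

theorem im_mul_am (x : k) (y : K) : h.im (algebraMap k K x * y) = x * h.im y := by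
  rw [← Algebra.smul_def, map_smul, smul_eq_mul]

theorem eq_of (x y : K) (h1 : h.re x = h.re y) (h2 : h.im x = h.im y) : x = y := by
  rw [h.eq x, h.eq y, h1, h2]

theorem two_ne (k K : Type) [Field k] [NumberField k] [Field K] [Algebra k K] :
    (2 : K) ≠ 0 := by
  have : CharZero K := charZero_of_injective_algebraMap (algebraMap k K).injective
  exact two_ne_zero

/-- the root -/
noncomputable def ww (b : 𝓞 k) : K := (algebraMap (𝓞 k) K b + h.s) / 2

theorem ww_eq (b : 𝓞 k) : ww h b = algebraMap k K ((b : k) / 2) + algebraMap k K (1 / 2) * h.s := by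
  unfold ww
  rw [am, map_div₀, map_div₀, map_one, map_ofNat]
  have := two_ne k K
  field_simp

theorem re_ww (b : 𝓞 k) : h.re (ww h b) = (b : k) / 2 := by
  rw [ww_eq, map_add, re_am, re_mul_am, h.res, mul_zero, add_zero]

theorem im_ww (b : 𝓞 k) : h.im (ww h b) = 1 / 2 := by
  rw [ww_eq, map_add, im_am, im_mul_am, h.ims, mul_one, zero_add]

theorem re_mul (x y : K) : h.re (x * y) = h.re x * h.re y - D * (h.im x * h.im y) := by
  have e : x * y = algebraMap k K (h.re x * h.re y - D * (h.im x * h.im y)) +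
      algebraMap k K (h.re x * h.im y + h.im x * h.re y) * h.s := by
    conv_lhs => rw [h.eq x, h.eq y]
    have := h.sq
    simp only [map_sub, map_mul, map_add]
    linear_combination (algebraMap k K (h.im x) * algebraMap k K (h.im y)) * this
  rw [e, map_add, re_am, re_mul_am, h.res, mul_zero, add_zero]

theorem im_mul (x y : K) : h.im (x * y) = h.re x * h.im y + h.im x * h.re y := by
  have e : x * y = algebraMap k K (h.re x * h.re y - D * (h.im x * h.im y)) +
      algebraMap k K (h.re x * h.im y + h.im x * h.re y) * h.s := by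
    conv_lhs => rw [h.eq x, h.eq y]
    have := h.sq
    simp only [map_sub, map_mul, map_add]
    linear_combination (algebraMap k K (h.im x) * algebraMap k K (h.im y)) * this
  rw [e, map_add, im_am, im_mul_am, h.ims, mul_one, zero_add]

/-- membership in the inverse of `f` -/
def fi (f : Ideal (𝓞 k)) (φ : k) : Prop := ∀ y ∈ f, ∃ z : 𝓞 k, (z : k) = φ * y

theorem fi_one (f : Ideal (𝓞 k)) : fi f (1 : k) := fun y _ => ⟨y, by rw [one_mul]⟩

/-- `x f⁻¹ ⊆ C` implies `x ∈ C f` -/
theorem refl_mem (hIDL : T_IDL k) (f C : Ideal (𝓞 k)) (hf : f ≠ ⊥) (x : k)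
    (hx : ∀ φ : k, fi f φ → ∃ c ∈ C, (c : k) = φ * x) :
    ∃ c ∈ C * f, (c : k) = x := by
  obtain ⟨f', t, hf', ht, hff⟩ := hIDL.1 f hf
  have ht' : (t : k) ≠ 0 := by
    intro h0
    exact ht (RingOfIntegers.ext h0)
  obtain ⟨c, hc, hcx⟩ := hx 1 (fi_one f)
  rw [one_mul] at hcx
  -- x = c is integral
  refine ⟨c, ?_, hcx⟩
  have h1 : Ideal.span {c} * f' ≤ C * Ideal.span {t} := by
    rw [Ideal.mul_le]
    intro r hr s hs
    obtain ⟨a, rfl⟩ := Ideal.mem_span_singleton'.mp hr
    -- s / t in the inverse of f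
    have h2 : fi f ((s : k) / t) := by
      intro y hy
      have h3 : y * s ∈ Ideal.span {t} := by
        rw [← hff]
        exact Ideal.mul_mem_mul hy hs
      obtain ⟨q, hq⟩ := Ideal.mem_span_singleton'.mp h3
      refine ⟨q, ?_⟩
      have h5 : ((q * t : 𝓞 k) : k) = ((y * s : 𝓞 k) : k) := by rw [hq]
      change (q : k) * (t : k) = (y : k) * (s : k) at h5
      field_simp
      linear_combination h5
    obtain ⟨d, hd, hdx⟩ := hx _ h2
    have h4 : c * s = d * t := by
      apply RingOfIntegers.ext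
      change (c : k) * (s : k) = (d : k) * (t : k)
      rw [hdx, hcx]
      field_simp
    have h5 : a * c * s = (a * d) * t := by
      rw [mul_assoc, h4]; ring
    rw [h5]
    exact Ideal.mul_mem_mul (C.mul_mem_left a hd) (Ideal.mem_span_singleton_self t)
  have h6 : Ideal.span {c} * f' ≤ (C * f) * f' := by
    rw [mul_assoc, hff]
    exact h1
  have h7 : (C * f) * f' ∣ Ideal.span {c} * f' := Ideal.dvd_iff_le.mpr h6
  have hf0 : f' ≠ 0 := hf'
  have h8 : C * f ∣ Ideal.span {c} := (mul_dvd_mul_iff_right hf0).mp h7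
  exact (Ideal.dvd_span_singleton).mp h8

end Basic

end Pool.Agent.H89.NVK
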