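import Pool.Agent.H89.NVK.PAR

set_option autoImplicit false
set_option linter.unusedSectionVars false

open MeasureTheory Set Filter NumberField NumberField.InfinitePlace
open Pool.Agent.H65.CM4 Pool.Agent.H61.NVK Pool.Agent.H89.NV
open scoped Real

namespace Pool.Agent.H89.NVK

section

variable {k : Type} [Field k] [NumberField k] [IsTotallyReal k] {K : Type} [Field K]
  [Algebra k K]

theorem hom_hom (J J' : Ideal (𝓞 k)) (g g' : K) (L : Submodule (𝓞 k) K) :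
    hom J g (hom J' g' L) = hom (J * J') (g * g') L := by
  unfold hom
  rw [Submodule.map_smul'', ← Submodule.mul_smul, ← Submodule.map_comp]
  congr 2
  ext x
  simp

theorem hom_span (t : 𝓞 k) (J : Ideal (𝓞 k)) (g : K) (L : Submodule (𝓞 k) K) :
    hom (Ideal.span {t} * J) g L = hom J (algebraMap (𝓞 k) K t * g) L := by
  calc hom (Ideal.span {t} * J) g L = hom (Ideal.span {t}) 1 (hom J g L) := by
        rw [hom_hom, one_mul]
    _ = hom ⊤ (algebraMap (𝓞 k) K t) (hom J g L) := by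
        have e2 : ∀ L : Submodule (𝓞 k) K, hom (Ideal.span {t}) (1 : K) L =
            hom ⊤ (algebraMap (𝓞 k) K t) L := by
          intro L
          unfold hom
          rw [Submodule.top_smul, Submodule.ideal_span_singleton_smul]
          ext x
          constructor
          · intro hx
            rw [Submodule.mem_smul_pointwise_iff_exists] at hx
            obtain ⟨y, hy, rfl⟩ := hx
            obtain ⟨z, hz, rfl⟩ := Submodule.mem_map.mp hy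
            refine Submodule.mem_map.mpr ⟨z, hz, ?_⟩
            rw [LinearMap.mulLeft_apply, LinearMap.mulLeft_apply, Algebra.smul_def, one_mul]
          · intro hx
            obtain ⟨z, hz, rfl⟩ := Submodule.mem_map.mp hx
            rw [Submodule.mem_smul_pointwise_iff_exists]
            refine ⟨z, Submodule.mem_map.mpr ⟨z, hz, ?_⟩, ?_⟩
            · rw [LinearMap.mulLeft_apply, one_mul]
            · rw [LinearMap.mulLeft_apply, Algebra.smul_def]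
        exact e2 _
    _ = hom J (algebraMap (𝓞 k) K t * g) L := by
        rw [hom_hom, Ideal.top_mul]

theorem hom_cancel (hIDL : T_IDL k) (J : Ideal (𝓞 k)) (g : K) (L L' : Submodule (𝓞 k) K)
    (hJ : J ≠ ⊥) (hg : g ≠ 0) (h : hom J g L = hom J g L') : L = L' := by
  have h1 := hIDL.2.2.2.2.2.2 K J (L.map (LinearMap.mulLeft (𝓞 k) g))
    (L'.map (LinearMap.mulLeft (𝓞 k) g)) hJ h
  have h2 : Function.Injective (LinearMap.mulLeft (𝓞 k) g) := by
    intro x y hxy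
    rw [LinearMap.mulLeft_apply, LinearMap.mulLeft_apply] at hxy
    exact mul_left_cancel₀ hg hxy
  exact Submodule.map_injective_of_injective h2 h1

theorem mem_hom (J : Ideal (𝓞 k)) (g : K) (L : Submodule (𝓞 k) K) (x : K) :
    x ∈ hom J g L ↔ ∃ y ∈ hom J 1 L, x = g * y := by
  have e : hom J g L = (hom J 1 L).map (LinearMap.mulLeft (𝓞 k) g) := by
    have : hom J g L = hom ⊤ g (hom J 1 L) := by
      rw [hom_hom, Ideal.top_mul, mul_one]
    rw [this]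
    unfold hom
    rw [Submodule.top_smul]
  rw [e, Submodule.mem_map]
  constructor
  · rintro ⟨y, hy, rfl⟩
    exact ⟨y, hy, rfl⟩
  · rintro ⟨y, hy, rfl⟩
    exact ⟨y, hy, rfl⟩

theorem hom_fg (J : Ideal (𝓞 k)) (g : K) (L : Submodule (𝓞 k) K) (hL : L.FG) :
    (hom J g L).FG := by
  have h1 : (L.map (LinearMap.mulLeft (𝓞 k) g)).FG := hL.map _
  have h2 : IsNoetherian (𝓞 k) (L.map (LinearMap.mulLeft (𝓞 k) g)) :=
    isNoetherian_of_fg_of_noetherian _ h1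
  have h3 : hom J g L ≤ L.map (LinearMap.mulLeft (𝓞 k) g) := Submodule.smul_le_right
  exact (isNoetherian_submodule.mp h2) _ h3

/-- homothetic lattices -/
def Hq2 (L L' : Submodule (𝓞 k) K) : Prop :=
  ∃ (I J : Ideal (𝓞 k)) (g : K), I ≠ ⊥ ∧ J ≠ ⊥ ∧ g ≠ 0 ∧ hom J g L = hom I 1 L'

theorem Hq2.refl (L : Submodule (𝓞 k) K) : Hq2 L L :=
  ⟨⊤, ⊤, 1, top_ne_bot, top_ne_bot, one_ne_zero, rfl⟩

theorem Hq2.symm {L L' : Submodule (𝓞 k) K} (h : Hq2 L L') : Hq2 L' L := by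
  obtain ⟨I, J, g, hI, hJ, hg, e⟩ := h
  refine ⟨J, I, g⁻¹, hJ, hI, inv_ne_zero hg, ?_⟩
  have h1 : hom ⊤ g⁻¹ (hom J g L) = hom ⊤ g⁻¹ (hom I 1 L') := by rw [e]
  rw [hom_hom, hom_hom, Ideal.top_mul, Ideal.top_mul, inv_mul_cancel₀ hg, mul_one] at h1
  exact h1.symm

theorem Hq2.trans {L L' L'' : Submodule (𝓞 k) K} (h : Hq2 L L') (h' : Hq2 L' L'') :
    Hq2 L L'' := by
  obtain ⟨I, J, g, hI, hJ, hg, e⟩ := h
  obtain ⟨I', J', g', hI', hJ', hg', e'⟩ := h'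
  refine ⟨I * I', J' * J, g' * g, ?_, ?_, mul_ne_zero hg' hg, ?_⟩
  · rw [Ne, Ideal.mul_eq_bot]
    tauto
  · rw [Ne, Ideal.mul_eq_bot]
    tauto
  · rw [← hom_hom, e, hom_hom, mul_one, mul_comm J' I]
    have : hom (I * J') g' L' = hom I 1 (hom J' g' L') := by rw [hom_hom, one_mul]
    rw [this, e', hom_hom, one_mul]

/-- ideals in the same class -/
theorem cls_eq (I J : Ideal (𝓞 k)) (hI : I ≠ ⊥) (hJ : J ≠ ⊥)
    (h : ClassGroup.mk0 ⟨I, mem_nonZeroDivisors_of_ne_zero hI⟩ =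
      ClassGroup.mk0 ⟨J, mem_nonZeroDivisors_of_ne_zero hJ⟩) :
    ∃ s r : 𝓞 k, s ≠ 0 ∧ r ≠ 0 ∧ Ideal.span {s} * I = Ideal.span {r} * J := by
  rw [ClassGroup.mk0_eq_mk0_iff] at h
  obtain ⟨s, r, hs, hr, e⟩ := h
  exact ⟨s, r, hs, hr, e⟩

/-- the class of an ideal -/
noncomputable def clI (I : Ideal (𝓞 k)) (hI : I ≠ ⊥) : ClassGroup (𝓞 k) :=
  ClassGroup.mk0 ⟨I, mem_nonZeroDivisors_of_ne_zero hI⟩

theorem clI_mul (I J : Ideal (𝓞 k)) (hI : I ≠ ⊥) (hJ : J ≠ ⊥) (hIJ : I * J ≠ ⊥) :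
    clI (I * J) hIJ = clI I hI * clI J hJ := by
  unfold clI
  rw [← map_mul]
  rfl

theorem ci_ne (c : ClassGroup (𝓞 k)) : ci c ≠ ⊥ :=
  nonZeroDivisors.ne_zero (cr c).2

theorem clI_ci (c : ClassGroup (𝓞 k)) : clI (ci c) (ci_ne c) = c := by
  unfold clI ci
  have : (⟨((cr c : nonZeroDivisors (Ideal (𝓞 k))) : Ideal (𝓞 k)),
      mem_nonZeroDivisors_of_ne_zero (ci_ne c)⟩ : nonZeroDivisors (Ideal (𝓞 k))) = cr c := rfl
  rw [this]
  exact Function.surjInv_eq ClassGroup.mk0_surjective c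

theorem Fo_rep (u : V2 k) (hu : u ≠ 0) : ∃ ε : (𝓞 k)ˣ, (ε : 𝓞 k) • u ∈ Fo k := by
  set v : V2 k := Quotient.out (Quotient.mk (MulAction.orbitRel (𝓞 k)ˣ (V2 k)) u) with hv
  have h1 : (MulAction.orbitRel (𝓞 k)ˣ (V2 k)) v u := Quotient.exact (Quotient.out_eq _)
  rw [MulAction.orbitRel_apply] at h1
  obtain ⟨ε, hε⟩ := h1
  have hε' : (ε : 𝓞 k) • u = v := hε
  refine ⟨ε, ?_⟩
  rw [hε']
  refine ⟨?_, ?_⟩
  · intro h0
    rw [h0] at hε'
    apply hu
    have : ((ε⁻¹ : (𝓞 k)ˣ) : 𝓞 k) • ((ε : 𝓞 k) • u) = 0 := by rw [hε', smul_zero]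
    rwa [← mul_smul, Units.inv_mul, one_smul] at this
  · have h2 : Quotient.mk (MulAction.orbitRel (𝓞 k)ˣ (V2 k)) v =
        Quotient.mk (MulAction.orbitRel (𝓞 k)ˣ (V2 k)) u := Quotient.out_eq _
    rw [h2]

theorem Fo_uniq (u v : V2 k) (hu : u ∈ Fo k) (hv : v ∈ Fo k) (ε : (𝓞 k)ˣ)
    (h : v = (ε : 𝓞 k) • u) : v = u := by
  have h2 : Quotient.mk (MulAction.orbitRel (𝓞 k)ˣ (V2 k)) v =
      Quotient.mk (MulAction.orbitRel (𝓞 k)ˣ (V2 k)) u := by
    apply Quotient.sound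
    change (MulAction.orbitRel (𝓞 k)ˣ (V2 k)) v u
    rw [MulAction.orbitRel_apply]
    exact ⟨ε, h.symm⟩
  rw [hv.2, hu.2, h2]

theorem hom_unit (ε : (𝓞 k)ˣ) (J : Ideal (𝓞 k)) (g : K) (L : Submodule (𝓞 k) K) :
    hom J (algebraMap (𝓞 k) K ε * g) L = hom J g L := by
  rw [← hom_span]
  have : Ideal.span {(ε : 𝓞 k)} = ⊤ := Ideal.span_singleton_eq_top.mpr ε.isUnit
  rw [this, Ideal.top_mul]

end

end Pool.Agent.H89.NVK
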