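import Pool.Agent.H89.NVK.Hom

set_option autoImplicit false
set_option linter.unusedSectionVars false

open MeasureTheory Set Filter NumberField NumberField.InfinitePlace
open Pool.Agent.H65.CM4 Pool.Agent.H61.NVK Pool.Agent.H89.NV
open scoped Real

namespace Pool.Agent.H89.NVK

section

variable {k : Type} [Field k] [NumberField k] [IsTotallyReal k]

/-- the index set of the unfolded sum -/
def XX (f : Ideal (𝓞 k)) (D : 𝓞 k) : Set ((Ideal (𝓞 k) × Ideal (𝓞 k)) × 𝓞 k) :=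
  {x | x.1.1 ≠ ⊥ ∧ x.1.2 ≠ ⊥ ∧ x.2 ∈ bs f x.1.2 D}

theorem XX_Fm {f : Ideal (𝓞 k)} {D : 𝓞 k} {x : (Ideal (𝓞 k) × Ideal (𝓞 k)) × 𝓞 k}
    (hx : x ∈ XX f D) : Fm f D x.1.2 x.2 := by
  classical
  obtain ⟨-, h2, h3⟩ := hx
  unfold bs at h3
  obtain ⟨-, h4, h5⟩ := Finset.mem_filter.mp h3
  exact ⟨h2, h4, h5⟩

/-- the vectors of the lattices of all classes modulo the units -/
def YY (f A : Ideal (𝓞 k)) : Set (ClassGroup (𝓞 k) × V2 k) :=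
  {y | y.2 ∈ Lb (ci y.1) (A * f) ∧ y.2 ∈ Fo k}

variable {D : 𝓞 k} {K : Type} [Field K] [Algebra k K] (h : CK D K)

/-- the vector `y` of the lattice of `(A₀, b₀)` corresponds to the lattice of `x` -/
def PP (f A₀ : Ideal (𝓞 k)) (b₀ : 𝓞 k) (y : ClassGroup (𝓞 k) × V2 k)
    (x : (Ideal (𝓞 k) × Ideal (𝓞 k)) × 𝓞 k) : Prop :=
  hom (x.1.1 * (x.1.2 * f)) 1 (hom (ci y.1) (zz h b₀ y.2)⁻¹ (Lam h f A₀ b₀)) =
    Lam h f x.1.2 x.2

theorem zz_smul (b t : 𝓞 k) (u : V2 k) : zz h b (t • u) = algebraMap (𝓞 k) K t * zz h b u := by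
  unfold zz
  change algebraMap (𝓞 k) K (t * u.1) + algebraMap (𝓞 k) K (t * u.2) * _ = _
  rw [map_mul, map_mul]; ring

theorem zz_re (b : 𝓞 k) (u : V2 k) : h.re (zz h b u) = (u.1 : k) + (u.2 : k) * ((b : k) / 2) := by
  change h.re (algebraMap (𝓞 k) K u.1 + algebraMap (𝓞 k) K u.2 * ww h b) = _
  rw [map_add, am, am, re_am, re_mul_am, re_ww]

theorem zz_im (b : 𝓞 k) (u : V2 k) : h.im (zz h b u) = (u.2 : k) / 2 := by
  change h.im (algebraMap (𝓞 k) K u.1 + algebraMap (𝓞 k) K u.2 * ww h b) = _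
  rw [map_add, am, am, im_am, im_mul_am, im_ww]; ring

theorem zz_inj (b : 𝓞 k) (u v : V2 k) (e : zz h b u = zz h b v) : u = v := by
  have h1 := congrArg h.im e
  have h2 := congrArg h.re e
  rw [zz_im, zz_im] at h1
  rw [zz_re, zz_re] at h2
  have h3 : (u.2 : k) = v.2 := by linear_combination 2 * h1
  have h4 : (u.1 : k) = v.1 := by
    rw [h3] at h2
    linear_combination h2
  exact Prod.ext (RingOfIntegers.ext h4) (RingOfIntegers.ext h3)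

theorem zz_ne (b : 𝓞 k) (u : V2 k) (hu : u ≠ 0) : zz h b u ≠ 0 := by
  intro h0
  apply hu
  apply zz_inj h b
  rw [h0]
  unfold zz
  change 0 = algebraMap (𝓞 k) K 0 + algebraMap (𝓞 k) K 0 * _
  rw [map_zero, zero_mul, add_zero]

theorem zz_t0 (b t : 𝓞 k) : zz h b (t, 0) = algebraMap (𝓞 k) K t := by
  unfold zz
  change algebraMap (𝓞 k) K t + algebraMap (𝓞 k) K 0 * _ = _
  rw [map_zero, zero_mul, add_zero]

theorem amK_ne {t : 𝓞 k} (ht : t ≠ 0) : algebraMap (𝓞 k) K t ≠ 0 := by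
  rw [am]
  exact (map_ne_zero (algebraMap k K)).mpr (ne_bot_zero ht)

/-- equal multiples of lattices of forms -/
theorem le_of_hom (hLMB : T_LMB k) (hD : tp D) (f : Ideal (𝓞 k)) (hf : f ≠ ⊥)
    (I J A₁ A₂ : Ideal (𝓞 k)) (b₁ b₂ : 𝓞 k) (h1 : Fm f D A₁ b₁) (h2 : Fm f D A₂ b₂)
    (h12 : hom I 1 (Lam h f A₁ b₁) = hom J 1 (Lam h f A₂ b₂)) : I ≤ J := by
  intro y hy
  have h3 : zz h b₁ (0, y) ∈ hom I 1 (Lam h f A₁ b₁) := by
    rw [(hLMB D hD K h f I A₁ b₁ hf h1).1]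
    exact ⟨(0, y), ⟨Ideal.zero_mem _, hy⟩, rfl⟩
  rw [h12, (hLMB D hD K h f J A₂ b₂ hf h2).1] at h3
  obtain ⟨u, hu, huz⟩ := h3
  have h4 := congrArg h.im huz
  rw [zz_im, zz_im] at h4
  have h5 : (y : k) = (u.2 : k) := by
    linear_combination 2 * h4
  have h6 : y = u.2 := RingOfIntegers.ext h5
  rw [h6]
  exact hu.2

variable {f : Ideal (𝓞 k)} {A₀ : Ideal (𝓞 k)} {b₀ : 𝓞 k}

/-- existence and uniqueness of the lattice of a vector -/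
theorem PP_ex (hLMB : T_LMB k) (hSTB : T_STB k)
    (hPAR : T_PAR k) (hD : tp D) (hf : f ≠ ⊥) (hTRV : T_TRV k) (h0 : Fm f D A₀ b₀)
    (y : ClassGroup (𝓞 k) × V2 k) (hy : y ∈ YY f A₀) :
    ∃! x, x ∈ XX f D ∧ PP h f A₀ b₀ y x := by
  have hF0 : Fm f D ⊤ b₀ := (hTRV f A₀ D b₀ hf h0).2.2.1
  have hu0 : y.2 ≠ 0 := hy.2.1
  have hz0 := zz_ne h b₀ y.2 hu0
  have h1 : Stb h f b₀ (hom (ci y.1) (zz h b₀ y.2)⁻¹ (Lam h f A₀ b₀)) :=
    ((hSTB D hD K h f b₀ hf hF0).2 _ _ _).1 ((hSTB D hD K h f b₀ hf hF0).1 A₀ b₀ h0)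
  have h2 : (hom (ci y.1) (zz h b₀ y.2)⁻¹ (Lam h f A₀ b₀)).FG :=
    hom_fg _ _ _ (hLMB D hD K h f ⊤ A₀ b₀ hf h0).2.1
  have h3 : (1 : K) ∈ hom (ci y.1) (zz h b₀ y.2)⁻¹ (Lam h f A₀ b₀) := by
    rw [mem_hom]
    refine ⟨zz h b₀ y.2, ?_, by rw [inv_mul_cancel₀ hz0]⟩
    rw [(hLMB D hD K h f (ci y.1) A₀ b₀ hf h0).1]
    exact ⟨y.2, hy.1, rfl⟩
  obtain ⟨x, ⟨hx1, hx2, hx3, hx4⟩, hu⟩ := hPAR D hD K h f b₀ _ hf hF0 h1 h2 h3
  refine ⟨((x.1, x.2.1), x.2.2), ⟨⟨hx1, hx2, hx3⟩, hx4⟩, ?_⟩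
  rintro ⟨⟨e', A'⟩, b'⟩ ⟨⟨h5, h6, h7⟩, h8⟩
  have := hu (e', A', b') ⟨h5, h6, h7, h8⟩
  rw [← this]

/-- the weight at the lattice of a vector -/
theorem PP_w (hIDL : T_IDL k) (hf : f ≠ ⊥) (h0 : Fm f D A₀ b₀) (w : VV k) (ω : WW k)
    (hw : VF h f w)
    (hω : ∀ (e A c : Ideal (𝓞 k)) (b t : 𝓞 k), e ≠ ⊥ → Fm f D A b → t ≠ 0 →
      Ideal.span {t} = c * (e * (A * f)) → ω e A b (q4 (b ^ 2 + D)) = w c A b (t, 0))
    (y : ClassGroup (𝓞 k) × V2 k) (hy : y ∈ YY f A₀)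
    (x : (Ideal (𝓞 k) × Ideal (𝓞 k)) × 𝓞 k) (hx : x ∈ XX f D) (hP : PP h f A₀ b₀ y x) :
    ω x.1.1 x.1.2 x.2 (q4 (x.2 ^ 2 + D)) = w (ci y.1) A₀ b₀ y.2 := by
  obtain ⟨⟨e, A⟩, b⟩ := x
  have hxF : Fm f D A b := XX_Fm hx
  have he : e ≠ ⊥ := hx.1
  change ω e A b (q4 (b ^ 2 + D)) = _
  change hom (e * (A * f)) 1 (hom (ci y.1) (zz h b₀ y.2)⁻¹ (Lam h f A₀ b₀)) = Lam h f A b at hP
  have hI : e * (A * f) ≠ ⊥ := by
    rw [Ne, Ideal.mul_eq_bot, Ideal.mul_eq_bot]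
    have := hxF.ne
    tauto
  obtain ⟨c, t, hc, ht, hct⟩ := hIDL.1 _ hI
  rw [mul_comm] at hct
  rw [hω e A c b t he hxF ht hct.symm]
  have hz0 := zz_ne h b₀ y.2 hy.2.1
  refine (hw.inv (ci y.1) c A₀ A b₀ b (algebraMap (𝓞 k) K t * (zz h b₀ y.2)⁻¹) y.2 (t, 0)
    (ci_ne _) hc h0 hxF (mul_ne_zero (amK_ne ht) (inv_ne_zero hz0)) hy.2.1 ?_ hy.1 ?_ ?_).symm
  · rw [← hP, hom_hom, hom_hom, ← hom_span, one_mul, one_mul, ← hct]
  · refine ⟨?_, Ideal.zero_mem _⟩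
    have h1 : t ∈ c * (e * (A * f)) := by
      rw [hct]; exact Ideal.mem_span_singleton_self t
    have h2 : c * (e * (A * f)) ≤ c * (A * f) :=
      Ideal.mul_mono_right Ideal.mul_le_right
    exact h2 h1
  · rw [mul_assoc, inv_mul_cancel₀ hz0, mul_one, zz_t0]

/-- every homothetic form of the index set comes from a vector -/
theorem PP_surj (hIDL : T_IDL k) (hLMB : T_LMB k) (hD : tp D) (hf : f ≠ ⊥) (h0 : Fm f D A₀ b₀)
    (x : (Ideal (𝓞 k) × Ideal (𝓞 k)) × 𝓞 k) (hx : x ∈ XX f D)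
    (hq : Hq2 (Lam h f A₀ b₀) (Lam h f x.1.2 x.2)) : ∃ y ∈ YY f A₀, PP h f A₀ b₀ y x := by
  obtain ⟨⟨e, A⟩, b⟩ := x
  have hxF : Fm f D A b := XX_Fm hx
  have he : e ≠ ⊥ := hx.1
  change Hq2 (Lam h f A₀ b₀) (Lam h f A b) at hq
  obtain ⟨I, J, g, hI, hJ, hg, hom0⟩ := hq
  have hE : e * (A * f) ≠ ⊥ := by
    rw [Ne, Ideal.mul_eq_bot, Ideal.mul_eq_bot]
    have := hxF.ne
    tauto
  obtain ⟨c₁, t, hc, ht, hct⟩ := hIDL.1 _ hE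
  have htK := amK_ne (K := K) ht
  -- the class
  have hJc : J * c₁ ≠ ⊥ := by
    rw [Ne, Ideal.mul_eq_bot]
    tauto
  set c : ClassGroup (𝓞 k) := clI (J * c₁) hJc * (clI I hI)⁻¹ with hcdef
  have hcI : ci c * I ≠ ⊥ := by
    rw [Ne, Ideal.mul_eq_bot]
    have := ci_ne c
    tauto
  have hcl : clI (ci c * I) hcI = clI (J * c₁) hJc := by
    rw [clI_mul _ _ (ci_ne c) hI, clI_ci, hcdef, inv_mul_cancel_right]
  obtain ⟨s, r, hs, hr, hsr⟩ := cls_eq _ _ hcI hJc hcl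
  have hsK := amK_ne (K := K) hs
  have hrK := amK_ne (K := K) hr
  set L₁ : Submodule (𝓞 k) K := hom c₁ (algebraMap (𝓞 k) K t)⁻¹ (Lam h f A b) with hL₁
  have hEL : hom (e * (A * f)) 1 L₁ = Lam h f A b := by
    rw [hL₁, hom_hom, one_mul, hct]
    have := hom_span t ⊤ (algebraMap (𝓞 k) K t)⁻¹ (Lam h f A b)
    rw [Ideal.mul_top, mul_inv_cancel₀ htK, hom_top] at this
    exact this
  have h1L : (1 : K) ∈ L₁ := by
    rw [hL₁, mem_hom]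
    refine ⟨algebraMap (𝓞 k) K t, ?_, by rw [inv_mul_cancel₀ htK]⟩
    rw [(hLMB D hD K h f c₁ A b hf hxF).1]
    refine ⟨(t, 0), ⟨?_, Ideal.zero_mem _⟩, (zz_t0 h b t).symm⟩
    have h1 : t ∈ e * (A * f) * c₁ := by
      rw [hct]; exact Ideal.mem_span_singleton_self t
    have h2 : e * (A * f) * c₁ ≤ c₁ * (A * f) := by
      rw [mul_comm c₁]
      exact Ideal.mul_mono_left Ideal.mul_le_right
    exact h2 h1
  -- `L₁` in terms of `Λ₀`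
  set z : K := algebraMap (𝓞 k) K t * algebraMap (𝓞 k) K r * (algebraMap (𝓞 k) K s * g)⁻¹ with hz
  have hz0 : z ≠ 0 := by
    rw [hz]
    exact mul_ne_zero (mul_ne_zero htK hrK) (inv_ne_zero (mul_ne_zero hsK hg))
  have hLz : L₁ = hom (ci c) z⁻¹ (Lam h f A₀ b₀) := by
    apply hom_cancel hIDL I (algebraMap (𝓞 k) K r) _ _ hI hrK
    have e1 : hom I (algebraMap (𝓞 k) K r) L₁ =
        hom (Ideal.span {r} * c₁) (algebraMap (𝓞 k) K t)⁻¹ (hom I 1 (Lam h f A b)) := by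
      rw [hL₁, hom_hom, hom_hom, mul_one, mul_assoc, hom_span, mul_comm I c₁]
    rw [e1, ← hom0, hom_hom, mul_assoc, mul_comm c₁ J, ← hsr, ← mul_assoc, hom_hom, mul_assoc,
      hom_span, mul_comm (ci c) I]
    congr 1
    rw [hz]
    field_simp
  have hzm : z ∈ hom (ci c) 1 (Lam h f A₀ b₀) := by
    rw [hLz, mem_hom] at h1L
    obtain ⟨y, hy, hy1⟩ := h1L
    have : y = z := by
      field_simp at hy1
      exact hy1.symm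
    rwa [← this]
  rw [(hLMB D hD K h f (ci c) A₀ b₀ hf h0).1] at hzm
  obtain ⟨u₀, hu₀, hzu⟩ := hzm
  have hu0 : u₀ ≠ 0 := by
    rintro rfl
    apply hz0
    rw [hzu]
    unfold zz
    change algebraMap (𝓞 k) K 0 + algebraMap (𝓞 k) K 0 * _ = 0
    rw [map_zero, zero_mul, add_zero]
  obtain ⟨ε, hε⟩ := Fo_rep u₀ hu0
  refine ⟨(c, (ε : 𝓞 k) • u₀), ⟨Submodule.smul_mem _ _ hu₀, hε⟩, ?_⟩
  change hom (e * (A * f)) 1 (hom (ci c) (zz h b₀ ((ε : 𝓞 k) • u₀))⁻¹ (Lam h f A₀ b₀)) =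
    Lam h f A b
  rw [zz_smul, ← hzu, mul_inv]
  have e3 : (algebraMap (𝓞 k) K (ε : 𝓞 k))⁻¹ = algebraMap (𝓞 k) K ((ε⁻¹ : (𝓞 k)ˣ) : 𝓞 k) := by
    apply inv_eq_of_mul_eq_one_right
    rw [← map_mul, Units.mul_inv, map_one]
  rw [e3, hom_unit, ← hLz, hEL]

/-- vectors with the same lattice differ by an automorphism -/
theorem PP_inj (hIDL : T_IDL k) (hLMB : T_LMB k) (hD : tp D) (hf : f ≠ ⊥) (h0 : Fm f D A₀ b₀)
    (hT : ∀ (I J : Ideal (𝓞 k)) (g : K), I ≠ ⊥ → J ≠ ⊥ → g ≠ 0 →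
      hom J g (Lam h f A₀ b₀) = hom I 1 (Lam h f A₀ b₀) → h.im g = 0)
    (x : (Ideal (𝓞 k) × Ideal (𝓞 k)) × 𝓞 k) (hx : x ∈ XX f D)
    (y₁ y₂ : ClassGroup (𝓞 k) × V2 k) (hy₁ : y₁ ∈ YY f A₀) (hy₂ : y₂ ∈ YY f A₀)
    (h1 : PP h f A₀ b₀ y₁ x) (h2 : PP h f A₀ b₀ y₂ x) : y₁ = y₂ := by
  obtain ⟨⟨e, A⟩, b⟩ := x
  have hxF : Fm f D A b := XX_Fm hx
  have he : e ≠ ⊥ := hx.1
  have hE : e * (A * f) ≠ ⊥ := by
    rw [Ne, Ideal.mul_eq_bot, Ideal.mul_eq_bot]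
    have := hxF.ne
    tauto
  have hz1 := zz_ne h b₀ y₁.2 hy₁.2.1
  have hz2 := zz_ne h b₀ y₂.2 hy₂.2.1
  have e1 : hom (ci y₁.1) (zz h b₀ y₁.2)⁻¹ (Lam h f A₀ b₀) =
      hom (ci y₂.1) (zz h b₀ y₂.2)⁻¹ (Lam h f A₀ b₀) := by
    apply hom_cancel hIDL (e * (A * f)) 1 _ _ hE one_ne_zero
    exact h1.trans h2.symm
  set q : K := zz h b₀ y₂.2 * (zz h b₀ y₁.2)⁻¹ with hq
  have e2 : hom (ci y₁.1) q (Lam h f A₀ b₀) = hom (ci y₂.1) 1 (Lam h f A₀ b₀) := by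
    have := congrArg (fun L => hom ⊤ (zz h b₀ y₂.2) L) e1
    simp only [hom_hom, Ideal.top_mul] at this
    rw [mul_inv_cancel₀ hz2] at this
    exact this
  have hq0 : q ≠ 0 := mul_ne_zero hz2 (inv_ne_zero hz1)
  have h3 := hT _ _ q (ci_ne _) (ci_ne _) hq0 e2
  obtain ⟨p, r, hr, hpr⟩ := IsFractionRing.div_surjective (A := 𝓞 k) (h.re q)
  have hr0 : r ≠ 0 := nonZeroDivisors.ne_zero hr
  have hpr' : (p : k) / (r : k) = h.re q := hpr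
  have hqk : q = algebraMap k K (h.re q) := by
    apply eq_of h
    · rw [re_am]
    · rw [im_am, h3]
  have hrK := amK_ne (K := K) hr0
  have hqp : algebraMap (𝓞 k) K r * q = algebraMap (𝓞 k) K p := by
    rw [hqk, ← hpr', am, am, ← map_mul]
    congr 1
    have := ne_bot_zero hr0
    field_simp
  have hp0 : p ≠ 0 := by
    rintro rfl
    rw [map_zero] at hqp
    exact (mul_ne_zero hrK hq0) hqp
  have e3 : hom (Ideal.span {p} * ci y₁.1) 1 (Lam h f A₀ b₀) =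
      hom (Ideal.span {r} * ci y₂.1) 1 (Lam h f A₀ b₀) := by
    rw [hom_span, hom_span, mul_one, mul_one, ← hqp]
    have := congrArg (fun L => hom ⊤ (algebraMap (𝓞 k) K r) L) e2
    simp only [hom_hom, Ideal.top_mul, mul_one] at this
    exact this
  have e4 : Ideal.span {p} * ci y₁.1 = Ideal.span {r} * ci y₂.1 := le_antisymm
    (le_of_hom h hLMB hD f hf _ _ _ _ _ _ h0 h0 e3)
    (le_of_hom h hLMB hD f hf _ _ _ _ _ _ h0 h0 e3.symm)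
  have hcl : y₁.1 = y₂.1 := by
    have : clI (ci y₁.1) (ci_ne _) = clI (ci y₂.1) (ci_ne _) := by
      unfold clI
      rw [ClassGroup.mk0_eq_mk0_iff]
      exact ⟨p, r, hp0, hr0, e4⟩
    rwa [clI_ci, clI_ci] at this
  have e5 : Ideal.span {p} = Ideal.span {r} := by
    rw [hcl] at e4
    have h5 : ci y₂.1 ≠ 0 := ci_ne _
    exact mul_right_cancel₀ h5 e4
  obtain ⟨ε, hε⟩ := Ideal.span_singleton_eq_span_singleton.mp e5
  have h6 : zz h b₀ y₁.2 = algebraMap (𝓞 k) K ε * zz h b₀ y₂.2 := by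
    have h7 : algebraMap (𝓞 k) K r * zz h b₀ y₂.2 =
        algebraMap (𝓞 k) K p * zz h b₀ y₁.2 := by
      rw [← hqp, hq]
      field_simp
    rw [← hε, map_mul] at h7
    have hpK := amK_ne (K := K) hp0
    have h8 : algebraMap (𝓞 k) K p * (algebraMap (𝓞 k) K ε * zz h b₀ y₂.2) =
        algebraMap (𝓞 k) K p * zz h b₀ y₁.2 := by
      rw [← h7]; ring
    exact (mul_left_cancel₀ hpK h8).symm
  rw [← zz_smul] at h6
  have h9 := zz_inj h b₀ _ _ h6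
  have h10 := Fo_uniq _ _ hy₂.2 hy₁.2 ε h9
  exact Prod.ext hcl h10

/-- transport of the vectors with a given lattice -/
theorem PP_move (hIDL : T_IDL k) (hLMB : T_LMB k) (hD : tp D) (hf : f ≠ ⊥) (h0 : Fm f D A₀ b₀)
    (x x' : (Ideal (𝓞 k) × Ideal (𝓞 k)) × 𝓞 k) (hx : x ∈ XX f D) (hx' : x' ∈ XX f D)
    (y₁ y₂ : ClassGroup (𝓞 k) × V2 k) (hy₁ : y₁ ∈ YY f A₀) (hy₂ : y₂ ∈ YY f A₀)
    (h1 : PP h f A₀ b₀ y₁ x) (h2 : PP h f A₀ b₀ y₂ x') :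
    ∃ F : ClassGroup (𝓞 k) × V2 k → ClassGroup (𝓞 k) × V2 k,
      ∀ y ∈ YY f A₀, PP h f A₀ b₀ y x → F y ∈ YY f A₀ ∧ PP h f A₀ b₀ (F y) x' ∧
        ∀ y' ∈ YY f A₀, PP h f A₀ b₀ y' x → F y = F y' → y = y' := by
  have hz1 := zz_ne h b₀ y₁.2 hy₁.2.1
  have hz2 := zz_ne h b₀ y₂.2 hy₂.2.1
  -- the constants of a class
  have hex : ∀ c : ClassGroup (𝓞 k), ∃ (s r : 𝓞 k), s ≠ 0 ∧ r ≠ 0 ∧
      Ideal.span {s} * (ci c * ci y₂.1) =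
        Ideal.span {r} * (ci (c * y₂.1 * y₁.1⁻¹) * ci y₁.1) := by
    intro c
    have hA : ci c * ci y₂.1 ≠ ⊥ := by
      rw [Ne, Ideal.mul_eq_bot]
      have := ci_ne c
      have := ci_ne y₂.1
      tauto
    have hB : ci (c * y₂.1 * y₁.1⁻¹) * ci y₁.1 ≠ ⊥ := by
      rw [Ne, Ideal.mul_eq_bot]
      have := ci_ne (c * y₂.1 * y₁.1⁻¹)
      have := ci_ne y₁.1
      tauto
    apply cls_eq _ _ hA hB
    change clI _ hA = clI _ hB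
    rw [clI_mul _ _ (ci_ne _) (ci_ne _), clI_mul _ _ (ci_ne _) (ci_ne _), clI_ci, clI_ci, clI_ci,
      clI_ci, inv_mul_cancel_right]
  choose s r hs hr hsr using hex
  -- the new vector
  have hmain : ∀ y ∈ YY f A₀, PP h f A₀ b₀ y x → ∃ u : V2 k, (y.1 * y₂.1 * y₁.1⁻¹, u) ∈ YY f A₀ ∧
      PP h f A₀ b₀ (y.1 * y₂.1 * y₁.1⁻¹, u) x' ∧ ∃ ε : (𝓞 k)ˣ,
      zz h b₀ u = algebraMap (𝓞 k) K ε * (algebraMap (𝓞 k) K (s y.1) *
        (algebraMap (𝓞 k) K (r y.1))⁻¹ * (zz h b₀ y₂.2 * (zz h b₀ y₁.2)⁻¹) *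
          zz h b₀ y.2) := by
    intro y hy hP
    have hz := zz_ne h b₀ y.2 hy.2.1
    have hsK := amK_ne (K := K) (hs y.1)
    have hrK := amK_ne (K := K) (hr y.1)
    obtain ⟨⟨e, A⟩, b⟩ := x
    have hxF : Fm f D A b := XX_Fm hx
    have he : e ≠ ⊥ := hx.1
    have hE : e * (A * f) ≠ ⊥ := by
      rw [Ne, Ideal.mul_eq_bot, Ideal.mul_eq_bot]
      have := hxF.ne
      tauto
    have e1 : hom (ci y.1) (zz h b₀ y.2)⁻¹ (Lam h f A₀ b₀) =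
        hom (ci y₁.1) (zz h b₀ y₁.2)⁻¹ (Lam h f A₀ b₀) := by
      apply hom_cancel hIDL (e * (A * f)) 1 _ _ hE one_ne_zero
      exact hP.trans h1.symm
    set c' := y.1 * y₂.1 * y₁.1⁻¹ with hc'
    set z' : K := algebraMap (𝓞 k) K (s y.1) * (algebraMap (𝓞 k) K (r y.1))⁻¹ *
      (zz h b₀ y₂.2 * (zz h b₀ y₁.2)⁻¹) * zz h b₀ y.2 with hz'
    have hz'0 : z' ≠ 0 := by
      rw [hz']
      refine mul_ne_zero (mul_ne_zero (mul_ne_zero hsK (inv_ne_zero hrK))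
        (mul_ne_zero hz2 (inv_ne_zero hz1))) hz
    have e2 : hom (ci c') z'⁻¹ (Lam h f A₀ b₀) =
        hom (ci y₂.1) (zz h b₀ y₂.2)⁻¹ (Lam h f A₀ b₀) := by
      apply hom_cancel hIDL (ci y₁.1) (algebraMap (𝓞 k) K (r y.1) *
        (zz h b₀ y.2)⁻¹ * z') _ _ (ci_ne _)
        (mul_ne_zero (mul_ne_zero hrK (inv_ne_zero hz)) hz'0)
      have e3 : hom (ci y₁.1) (algebraMap (𝓞 k) K (r y.1) * (zz h b₀ y.2)⁻¹ * z')
          (hom (ci c') z'⁻¹ (Lam h f A₀ b₀)) =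
          hom (Ideal.span {r y.1} * (ci c' * ci y₁.1)) (zz h b₀ y.2)⁻¹ (Lam h f A₀ b₀) := by
        rw [hom_hom, hom_span, mul_comm (ci y₁.1)]
        congr 1
        field_simp
      rw [e3, ← hsr, hom_span]
      have e4 : hom (ci y.1 * ci y₂.1) (algebraMap (𝓞 k) K (s y.1) * (zz h b₀ y.2)⁻¹)
          (Lam h f A₀ b₀) = hom (ci y₂.1) (algebraMap (𝓞 k) K (s y.1))
            (hom (ci y.1) (zz h b₀ y.2)⁻¹ (Lam h f A₀ b₀)) := by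
        rw [hom_hom, mul_comm (ci y₂.1)]
      rw [e4, e1, hom_hom, hom_hom, mul_comm (ci y₂.1)]
      congr 1
      rw [hz']
      field_simp
    -- membership
    have hzm : z' ∈ hom (ci c') 1 (Lam h f A₀ b₀) := by
      have h3 : (1 : K) ∈ hom (ci c') z'⁻¹ (Lam h f A₀ b₀) := by
        rw [e2, mem_hom]
        refine ⟨zz h b₀ y₂.2, ?_, by rw [inv_mul_cancel₀ hz2]⟩
        rw [(hLMB D hD K h f (ci y₂.1) A₀ b₀ hf h0).1]
        exact ⟨y₂.2, hy₂.1, rfl⟩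
      rw [mem_hom] at h3
      obtain ⟨w, hw, hw1⟩ := h3
      have : w = z' := by
        field_simp at hw1
        exact hw1.symm
      rwa [← this]
    rw [(hLMB D hD K h f (ci c') A₀ b₀ hf h0).1] at hzm
    obtain ⟨u₀, hu₀, hzu⟩ := hzm
    have hu0 : u₀ ≠ 0 := by
      rintro rfl
      apply hz'0
      rw [hzu]
      unfold zz
      change algebraMap (𝓞 k) K 0 + algebraMap (𝓞 k) K 0 * _ = 0
      rw [map_zero, zero_mul, add_zero]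
    obtain ⟨ε, hε⟩ := Fo_rep u₀ hu0
    refine ⟨(ε : 𝓞 k) • u₀, ⟨Submodule.smul_mem _ _ hu₀, hε⟩, ?_, ε, ?_⟩
    · change hom (x'.1.1 * (x'.1.2 * f)) 1 (hom (ci c') (zz h b₀ ((ε : 𝓞 k) • u₀))⁻¹
        (Lam h f A₀ b₀)) = Lam h f x'.1.2 x'.2
      rw [zz_smul, ← hzu, mul_inv]
      have e3 : (algebraMap (𝓞 k) K (ε : 𝓞 k))⁻¹ =
          algebraMap (𝓞 k) K ((ε⁻¹ : (𝓞 k)ˣ) : 𝓞 k) := by
        apply inv_eq_of_mul_eq_one_right
        rw [← map_mul, Units.mul_inv, map_one]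
      rw [e3, hom_unit, e2]
      exact h2
    · rw [zz_smul, ← hzu]
  classical
  refine ⟨fun y => if hy : y ∈ YY f A₀ ∧ PP h f A₀ b₀ y x then
    (y.1 * y₂.1 * y₁.1⁻¹, (hmain y hy.1 hy.2).choose) else y, ?_⟩
  intro y hy hP
  have hyy : y ∈ YY f A₀ ∧ PP h f A₀ b₀ y x := ⟨hy, hP⟩
  simp only [hyy, and_self, dif_pos]
  obtain ⟨a1, a2, ε, a3⟩ := (hmain y hy hP).choose_spec
  refine ⟨a1, a2, ?_⟩
  intro y' hy' hP' hFF
  have hyy' : y' ∈ YY f A₀ ∧ PP h f A₀ b₀ y' x := ⟨hy', hP'⟩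
  simp only [hyy', and_self, dif_pos] at hFF
  obtain ⟨b1, b2, ε', b3⟩ := (hmain y' hy' hP').choose_spec
  rw [Prod.mk.injEq] at hFF
  obtain ⟨hc, hu⟩ := hFF
  have hcc : y.1 = y'.1 := by
    have := mul_right_cancel hc
    exact mul_right_cancel this
  rw [hu, b3] at a3
  have hsK := amK_ne (K := K) (hs y.1)
  have hrK := amK_ne (K := K) (hr y.1)
  rw [← hcc] at a3
  set q : K := algebraMap (𝓞 k) K (s y.1) * (algebraMap (𝓞 k) K (r y.1))⁻¹ *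
    (zz h b₀ y₂.2 * (zz h b₀ y₁.2)⁻¹) with hq
  have hq0 : q ≠ 0 := mul_ne_zero (mul_ne_zero hsK (inv_ne_zero hrK))
    (mul_ne_zero hz2 (inv_ne_zero hz1))
  have h3 : algebraMap (𝓞 k) K ε' * zz h b₀ y'.2 = algebraMap (𝓞 k) K ε * zz h b₀ y.2 := by
    apply mul_left_cancel₀ hq0
    linear_combination a3
  have h4 : y'.2 = ((ε'⁻¹ * ε : (𝓞 k)ˣ) : 𝓞 k) • y.2 := by
    apply zz_inj h b₀
    rw [zz_smul, Units.val_mul, map_mul, mul_assoc, ← h3, ← mul_assoc, ← map_mul, Units.inv_mul,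
      map_one, one_mul]
  exact Prod.ext hcc (Fo_uniq _ _ hy.2 hy'.2 _ h4).symm

end

end Pool.Agent.H89.NVK
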