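import Pool.Agent.H89.NVK.ORA

set_option autoImplicit false
set_option linter.unusedSectionVars false

open MeasureTheory Set Filter NumberField NumberField.InfinitePlace
open Pool.Agent.H65.CM4 Pool.Agent.H61.NVK Pool.Agent.H89.NV
open scoped Real

namespace Pool.Agent.H89.NVK

section

variable {k : Type} [Field k] [NumberField k] [IsTotallyReal k]
variable {D : 𝓞 k} {K : Type} [Field K] [Algebra k K] (h : CK D K)
variable {f : Ideal (𝓞 k)} {A₀ : Ideal (𝓞 k)} {b₀ : 𝓞 k}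

/-- the norm of a vector of `YY` -/
noncomputable def ny (f A₀ : Ideal (𝓞 k)) (b₀ D : 𝓞 k) (y : ClassGroup (𝓞 k) × V2 k) : ℝ :=
  nf (ci y.1) A₀ f (em b₀) (em D) y.2

theorem one_le_ny (hD : tp D) (hLMB : T_LMB k) (h : CK D K) (hf : f ≠ ⊥) (h0 : Fm f D A₀ b₀)
    (y : ClassGroup (𝓞 k) × V2 k) (hy : y ∈ YY f A₀) : 1 ≤ ny f A₀ b₀ D y :=
  (hLMB D hD K h f (ci y.1) A₀ b₀ hf h0).2.2 y.2 hy.1 hy.2.1 (ci_ne _)

/-- absolute convergence -/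
theorem sumY (hGRW : T_GRW k) (hD : tp D) (hf : f ≠ ⊥) (h0 : Fm f D A₀ b₀) :
    Summable (fun y : YY f A₀ => 1 / ny f A₀ b₀ D y.1 ^ 2) := by
  classical
  obtain ⟨C, j, -, hG⟩ := hGRW f D hf hD
  obtain ⟨hs, -⟩ := hG A₀ b₀ h0
  have h1 : Summable ((YY f A₀).indicator (fun y => 1 / ny f A₀ b₀ D y ^ 2)) := by
    have hnn : ∀ y, 0 ≤ (YY f A₀).indicator (fun y => 1 / ny f A₀ b₀ D y ^ 2) y := by
      intro y
      apply Set.indicator_nonneg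
      intro y _
      positivity
    rw [summable_prod_of_nonneg hnn]
    refine ⟨?_, Summable.of_finite⟩
    intro a
    have h2 := hs a
    rw [show (fun u : {u : V2 k // u ∈ Lb (ci a) (A₀ * f) ∧ u ∈ Fo k} =>
      1 / nf (ci a) A₀ f (em b₀) (em D) u ^ 2) = (fun u : V2 k =>
        1 / nf (ci a) A₀ f (em b₀) (em D) u ^ 2) ∘ (Subtype.val) from rfl] at h2
    have h3 := (summable_subtype_iff_indicator (s := {u : V2 k | u ∈ Lb (ci a) (A₀ * f) ∧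
      u ∈ Fo k})).mp h2
    refine h3.congr ?_
    intro u
    by_cases hu : u ∈ {u : V2 k | u ∈ Lb (ci a) (A₀ * f) ∧ u ∈ Fo k}
    · rw [Set.indicator_of_mem hu, Set.indicator_of_mem (show (a, u) ∈ YY f A₀ from hu)]
      rfl
    · rw [Set.indicator_of_notMem hu, Set.indicator_of_notMem (show (a, u) ∉ YY f A₀ from hu)]
  exact (summable_subtype_iff_indicator (s := YY f A₀)).mpr h1

theorem sumW (hGRW : T_GRW k) (hD : tp D) (hf : f ≠ ⊥) (h0 : Fm f D A₀ b₀)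
    (w : VV k) (hw : VF h f w) :
    Summable (fun y : YY f A₀ => w (ci y.1.1) A₀ b₀ y.1.2) := by
  obtain ⟨C, hC, hb⟩ := hw.bd 2
  refine Summable.of_norm_bounded ((sumY hGRW hD hf h0).mul_left C) ?_
  rintro ⟨y, hy⟩
  have := hb (ci y.1) A₀ b₀ y.2 (ci_ne _) h0 hy.1 hy.2.1
  rw [Real.norm_eq_abs]
  refine this.trans (le_of_eq ?_)
  change _ = C * (1 / nf (ci y.1) A₀ f (em b₀) (em D) y.2 ^ 2)
  ring

theorem Vs_eq (w : VV k) (hs : Summable (fun y : YY f A₀ => w (ci y.1.1) A₀ b₀ y.1.2)) :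
    Vs f w A₀ b₀ = ∑' y : YY f A₀, w (ci y.1.1) A₀ b₀ y.1.2 := by
  classical
  have h1 : Summable ((YY f A₀).indicator (fun y => w (ci y.1) A₀ b₀ y.2)) :=
    (summable_subtype_iff_indicator (s := YY f A₀)).mp hs
  have h2 : ∑' y : YY f A₀, w (ci y.1.1) A₀ b₀ y.1.2 =
      ∑' y, (YY f A₀).indicator (fun y => w (ci y.1) A₀ b₀ y.2) y :=
    tsum_subtype (YY f A₀) (fun y => w (ci y.1) A₀ b₀ y.2)
  rw [h2, h1.tsum_prod, tsum_fintype]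
  unfold Vs
  refine Finset.sum_congr rfl fun a _ => ?_
  refine tsum_congr fun u => ?_
  by_cases hu : u ∈ Lb (ci a) (A₀ * f) ∧ u ∈ Fo k
  · rw [if_pos hu, Set.indicator_of_mem (show (a, u) ∈ YY f A₀ from hu)]
  · rw [if_neg hu, Set.indicator_of_notMem (show (a, u) ∉ YY f A₀ from hu)]

/-- the norm is constant on the fibres -/
theorem PP_nf (hIDL : T_IDL k) (hIXN : T_IXN k) (hD : tp D) (hf : f ≠ ⊥) (h0 : Fm f D A₀ b₀)
    (x : (Ideal (𝓞 k) × Ideal (𝓞 k)) × 𝓞 k) (hx : x ∈ XX f D) :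
    ∃ κ : ℝ, ∀ y ∈ YY f A₀, PP h f A₀ b₀ y x → ny f A₀ b₀ D y = κ := by
  obtain ⟨⟨e, A⟩, b⟩ := x
  have hxF : Fm f D A b := XX_Fm hx
  have he : e ≠ ⊥ := hx.1
  have hI : e * (A * f) ≠ ⊥ := by
    rw [Ne, Ideal.mul_eq_bot, Ideal.mul_eq_bot]
    have := hxF.ne
    tauto
  obtain ⟨c, t, hc, ht, hct⟩ := hIDL.1 _ hI
  rw [mul_comm] at hct
  refine ⟨nf c A f (em b) (em D) (t, 0), ?_⟩
  intro y hy hP
  change hom (e * (A * f)) 1 (hom (ci y.1) (zz h b₀ y.2)⁻¹ (Lam h f A₀ b₀)) = Lam h f A b at hP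
  have hz0 := zz_ne h b₀ y.2 hy.2.1
  refine (hIXN D hD K h f (ci y.1) c A₀ A b₀ b (algebraMap (𝓞 k) K t * (zz h b₀ y.2)⁻¹) hf
    (ci_ne _) hc h0 hxF (mul_ne_zero (amK_ne ht) (inv_ne_zero hz0)) ?_).2 y.2 (t, 0) ?_
  · rw [← hP, hom_hom, hom_hom, ← hom_span, one_mul, one_mul, ← hct]
  · rw [mul_assoc, inv_mul_cancel₀ hz0, mul_one, zz_t0]

/-- the fibres are finite -/
theorem fib_fin (hIDL : T_IDL k) (hIXN : T_IXN k) (hLMB : T_LMB k) (hGRW : T_GRW k) (hD : tp D)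
    (hf : f ≠ ⊥) (h0 : Fm f D A₀ b₀)
    (x : (Ideal (𝓞 k) × Ideal (𝓞 k)) × 𝓞 k) (hx : x ∈ XX f D) :
    {y | y ∈ YY f A₀ ∧ PP h f A₀ b₀ y x}.Finite := by
  obtain ⟨κ, hκ⟩ := PP_nf h hIDL hIXN hD hf h0 x hx
  by_cases hne : {y | y ∈ YY f A₀ ∧ PP h f A₀ b₀ y x}.Nonempty
  · obtain ⟨y₀, hy₀, hP₀⟩ := hne
    have h1 : 1 ≤ κ := by
      rw [← hκ y₀ hy₀ hP₀]
      exact one_le_ny hD hLMB h hf h0 y₀ hy₀
    have h2 := (sumY hGRW hD hf h0).tendsto_cofinite_zero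
    have h3 : ∀ᶠ y : YY f A₀ in cofinite, 1 / ny f A₀ b₀ D y.1 ^ 2 < 1 / κ ^ 2 :=
      h2.eventually (gt_mem_nhds (by positivity))
    rw [Filter.eventually_cofinite] at h3
    refine (h3.image Subtype.val).subset ?_
    rintro y ⟨hy, hP⟩
    refine ⟨⟨y, hy⟩, ?_, rfl⟩
    change ¬ (1 / ny f A₀ b₀ D y ^ 2 < 1 / κ ^ 2)
    rw [hκ y hy hP]
    exact lt_irrefl _
  · rw [Set.not_nonempty_iff_eq_empty] at hne
    rw [hne]
    exact Set.finite_empty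

theorem PP_hq (y : ClassGroup (𝓞 k) × V2 k) (hy : y ∈ YY f A₀) (hf : f ≠ ⊥)
    (x : (Ideal (𝓞 k) × Ideal (𝓞 k)) × 𝓞 k) (hx : x ∈ XX f D) (hP : PP h f A₀ b₀ y x) :
    Hq2 (Lam h f A₀ b₀) (Lam h f x.1.2 x.2) := by
  have hE : x.1.1 * (x.1.2 * f) ≠ ⊥ := by
    rw [Ne, Ideal.mul_eq_bot, Ideal.mul_eq_bot]
    have := hx.1
    have := hx.2.1
    tauto
  refine ⟨⊤, x.1.1 * (x.1.2 * f) * ci y.1, (zz h b₀ y.2)⁻¹, top_ne_bot, ?_,
    inv_ne_zero (zz_ne h b₀ y.2 hy.2.1), ?_⟩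
  · rw [Ne, Ideal.mul_eq_bot]
    have := ci_ne y.1
    tauto
  · rw [hom_top, ← hP, hom_hom, one_mul]

end

end Pool.Agent.H89.NVK
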