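import Pool.Agent.H89.NVK.ORC

set_option autoImplicit false
set_option linter.unusedSectionVars false

open MeasureTheory Set Filter NumberField NumberField.InfinitePlace
open Pool.Agent.H65.CM4 Pool.Agent.H61.NVK Pool.Agent.H89.NV
open scoped Real

namespace Pool.Agent.H89.NVK

section

variable {k : Type} [Field k] [NumberField k] [IsTotallyReal k]
variable {D : 𝓞 k} {K : Type} [Field K] [Algebra k K] (h : CK D K)
variable {f : Ideal (𝓞 k)} {A₀ : Ideal (𝓞 k)} {b₀ : 𝓞 k}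

/-- the index set of a class of forms -/
def XC (f A₀ : Ideal (𝓞 k)) (b₀ : 𝓞 k) : Set ((Ideal (𝓞 k) × Ideal (𝓞 k)) × 𝓞 k) :=
  {x | x ∈ XX f D ∧ Hq2 (Lam h f A₀ b₀) (Lam h f x.1.2 x.2)}

/-- the sum over the vectors in terms of the sum over a class of forms -/
theorem core (hIDL : T_IDL k) (hLMB : T_LMB k) (hSTB : T_STB k) (hPAR : T_PAR k)
    (hIXN : T_IXN k) (hGRW : T_GRW k) (hTRV : T_TRV k) (hD : tp D) (hf : f ≠ ⊥)
    (h0 : Fm f D A₀ b₀) (hne : (XC h f A₀ b₀).Nonempty) (w : VV k) (ω : WW k) (hw : VF h f w)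
    (hω : ∀ (e A c : Ideal (𝓞 k)) (b t : 𝓞 k), e ≠ ⊥ → Fm f D A b → t ≠ 0 →
      Ideal.span {t} = c * (e * (A * f)) → ω e A b (q4 (b ^ 2 + D)) = w c A b (t, 0)) :
    ∃ N : ℕ, 1 ≤ N ∧
      ((∀ (I J : Ideal (𝓞 k)) (g : K), I ≠ ⊥ → J ≠ ⊥ → g ≠ 0 →
        hom J g (Lam h f A₀ b₀) = hom I 1 (Lam h f A₀ b₀) → h.im g = 0) → N = 1) ∧
      Vs f w A₀ b₀ = N * ∑' x : XC h f A₀ b₀, ω x.1.1.1 x.1.1.2 x.1.2 (q4 (x.1.2 ^ 2 + D)) := by
  classical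
  have hsW := sumW h hGRW hD hf h0 w hw
  -- the map to the class
  have hex : ∀ y : YY f A₀, ∃ x : XC h f A₀ b₀, PP h f A₀ b₀ y.1 x.1 := by
    rintro ⟨y, hy⟩
    obtain ⟨x, ⟨hx, hP⟩, -⟩ := PP_ex h hLMB hSTB hPAR hD hf hTRV h0 y hy
    exact ⟨⟨x, hx, PP_hq h y hy hf x hx hP⟩, hP⟩
  choose p hp using hex
  have hpu : ∀ (y : YY f A₀) (x : XC h f A₀ b₀), p y = x ↔ PP h f A₀ b₀ y.1 x.1 := by
    intro y x
    constructor
    · rintro rfl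
      exact hp y
    · intro hP
      obtain ⟨x', -, hu⟩ := PP_ex h hLMB hSTB hPAR hD hf hTRV h0 y.1 y.2
      have h1 := hu (p y).1 ⟨(p y).2.1, hp y⟩
      have h2 := hu x.1 ⟨x.2.1, hP⟩
      exact Subtype.ext (h1.trans h2.symm)
  -- the fibres
  have hfin : ∀ x : XC h f A₀ b₀, Finite {y : YY f A₀ // p y = x} := by
    intro x
    have h1 := fib_fin h hIDL hIXN hLMB hGRW hD hf h0 x.1 x.2.1
    have h2 : Finite {y | y ∈ YY f A₀ ∧ PP h f A₀ b₀ y x.1} := h1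
    refine Finite.of_injective (fun y : {y : YY f A₀ // p y = x} =>
      (⟨y.1.1, y.1.2, (hpu _ _).mp y.2⟩ : {y | y ∈ YY f A₀ ∧ PP h f A₀ b₀ y x.1})) ?_
    intro y y' hyy
    have := congrArg Subtype.val hyy
    exact Subtype.ext (Subtype.ext this)
  have hnonempty : ∀ x : XC h f A₀ b₀, Nonempty {y : YY f A₀ // p y = x} := by
    intro x
    obtain ⟨y, hy, hP⟩ := PP_surj h hIDL hLMB hD hf h0 x.1 x.2.1 x.2.2
    exact ⟨⟨⟨y, hy⟩, (hpu _ _).mpr hP⟩⟩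
  have hle : ∀ x x' : XC h f A₀ b₀, Nat.card {y : YY f A₀ // p y = x} ≤
      Nat.card {y : YY f A₀ // p y = x'} := by
    intro x x'
    obtain ⟨⟨y₁, hy₁⟩⟩ := hnonempty x
    obtain ⟨⟨y₂, hy₂⟩⟩ := hnonempty x'
    obtain ⟨F, hF⟩ := PP_move h hIDL hLMB hD hf h0 x.1 x'.1 x.2.1 x'.2.1 y₁.1 y₂.1 y₁.2 y₂.2
      ((hpu _ _).mp hy₁) ((hpu _ _).mp hy₂)
    have := hfin x'
    refine Nat.card_le_card_of_injective (fun y : {y : YY f A₀ // p y = x} =>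
      (⟨⟨F y.1.1, (hF y.1.1 y.1.2 ((hpu _ _).mp y.2)).1⟩,
        (hpu _ _).mpr (hF y.1.1 y.1.2 ((hpu _ _).mp y.2)).2.1⟩ :
        {y : YY f A₀ // p y = x'})) ?_
    intro y y' hyy
    have h1 : F y.1.1 = F y'.1.1 := congrArg (fun z => z.1.1) hyy
    have h2 := (hF y.1.1 y.1.2 ((hpu _ _).mp y.2)).2.2 y'.1.1 y'.1.2 ((hpu _ _).mp y'.2) h1
    exact Subtype.ext (Subtype.ext h2)
  obtain ⟨x₀, hx₀⟩ := hne
  set x₁ : XC h f A₀ b₀ := ⟨x₀, hx₀⟩ with hx₁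
  set N : ℕ := Nat.card {y : YY f A₀ // p y = x₁} with hN
  have hcard : ∀ x : XC h f A₀ b₀, Nat.card {y : YY f A₀ // p y = x} = N :=
    fun x => le_antisymm (hle _ _) (hle _ _)
  have hN1 : 1 ≤ N := by
    have h1 := hfin x₁
    have h2 := hnonempty x₁
    exact Nat.card_pos
  refine ⟨N, hN1, ?_, ?_⟩
  · intro hT
    have h1 := hnonempty x₁
    have h2 : Subsingleton {y : YY f A₀ // p y = x₁} := by
      constructor
      intro y y'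
      have := PP_inj h hIDL hLMB hD hf h0 hT x₁.1 x₁.2.1 y.1.1 y'.1.1 y.1.2 y'.1.2
        ((hpu _ _).mp y.2) ((hpu _ _).mp y'.2)
      exact Subtype.ext (Subtype.ext this)
    rw [hN]
    exact Nat.card_unique
  · have hval : ∀ (x : XC h f A₀ b₀) (y : {y : YY f A₀ // p y = x}),
        w (ci y.1.1.1) A₀ b₀ y.1.1.2 = ω x.1.1.1 x.1.1.2 x.1.2 (q4 (x.1.2 ^ 2 + D)) := by
      intro x y
      exact (PP_w h hIDL hf h0 w ω hw hω y.1.1 y.1.2 x.1 x.2.1 ((hpu _ _).mp y.2)).symm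
    rw [Vs_eq w hsW]
    have e1 := (Equiv.sigmaFiberEquiv p).tsum_eq
      (fun y : YY f A₀ => w (ci y.1.1) A₀ b₀ y.1.2)
    rw [← e1]
    have hs2 : Summable (fun σ : (Σ x, {y : YY f A₀ // p y = x}) =>
        (fun y : YY f A₀ => w (ci y.1.1) A₀ b₀ y.1.2) ((Equiv.sigmaFiberEquiv p) σ)) :=
      (Equiv.sigmaFiberEquiv p).summable_iff.mpr hsW
    rw [hs2.tsum_sigma, ← tsum_mul_left]
    refine tsum_congr fun x => ?_
    have e2 : ∀ y : {y : YY f A₀ // p y = x},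
        (fun y : YY f A₀ => w (ci y.1.1) A₀ b₀ y.1.2) ((Equiv.sigmaFiberEquiv p) ⟨x, y⟩) =
          ω x.1.1.1 x.1.1.2 x.1.2 (q4 (x.1.2 ^ 2 + D)) := fun y => hval x y
    rw [tsum_congr e2, tsum_const, hcard, nsmul_eq_mul]

end

end Pool.Agent.H89.NVK
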