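import Pool.Agent.H89.NVK.ORD
import Pool.Agent.H65.CM4.Targets1

set_option autoImplicit false
set_option linter.unusedSectionVars false

open MeasureTheory Set Filter NumberField NumberField.InfinitePlace
open Pool.Agent.H65.CM4 Pool.Agent.H61.NVK Pool.Agent.H89.NV
open scoped Real

namespace Pool.Agent.H89.NVK

section

variable {k : Type} [Field k] [NumberField k] [IsTotallyReal k]
variable {D : 𝓞 k} {K : Type} [Field K] [Algebra k K] (h : CK D K)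
variable {f : Ideal (𝓞 k)}

theorem nf_t0 (hIDL : T_IDL k) (hEMB : T_EMB k) (hf : f ≠ ⊥) (e A c : Ideal (𝓞 k)) (b t : 𝓞 k)
    (he : e ≠ ⊥) (hA : A ≠ ⊥) (hc : c ≠ ⊥) (hct : Ideal.span {t} = c * (e * (A * f))) :
    nf c A f (em b) (em D) (t, 0) = nm (e ^ 2 * A) := by
  obtain ⟨-, -, -, hmul, hone, -⟩ := hIDL
  have h1 : nm (Ideal.span {t}) = Nr (t : k) := hEMB.2.2.2.2.2.2.2.2.1 t
  have h2 : qd (em b) (em D) (t, 0) = Nr (t : k) ^ 2 := by
    unfold qd Nr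
    rw [← Finset.prod_pow]
    refine Finset.prod_congr rfl fun v _ => ?_
    change (rv v (t : k) + rv v ((0 : 𝓞 k) : k) * em b v / 2) ^ 2 +
      em D v * rv v ((0 : 𝓞 k) : k) ^ 2 / 4 = _
    have : ((0 : 𝓞 k) : k) = 0 := rfl
    rw [this, map_zero, sq_abs]; ring
  unfold nf
  have e4 : nm (e ^ 2) = nm e ^ 2 := by rw [pow_two, hmul, pow_two]
  rw [h2, ← h1, hct, hmul, hmul, hmul, hmul, e4]
  have a1 := hone c hc
  have a2 := hone f hf
  have a3 := hone A hA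
  field_simp

theorem om_bd (hIDL : T_IDL k) (hEMB : T_EMB k) (hf : f ≠ ⊥) (w : VV k)
    (ω : WW k) (hw : VF h f w)
    (hω : ∀ (e A c : Ideal (𝓞 k)) (b t : 𝓞 k), e ≠ ⊥ → Fm f D A b → t ≠ 0 →
      Ideal.span {t} = c * (e * (A * f)) → ω e A b (q4 (b ^ 2 + D)) = w c A b (t, 0)) (B : ℕ) :
    ∃ C : ℝ, 0 ≤ C ∧ ∀ e A b, e ≠ ⊥ → Fm f D A b →
      |ω e A b (q4 (b ^ 2 + D))| ≤ C / nm (e ^ 2 * A) ^ B := by
  obtain ⟨C, hC, hb⟩ := hw.bd B
  refine ⟨C, hC, ?_⟩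
  intro e A b he hF
  have hI : e * (A * f) ≠ ⊥ := by
    rw [Ne, Ideal.mul_eq_bot, Ideal.mul_eq_bot]
    have := hF.ne
    tauto
  obtain ⟨c, t, hc, ht, hct⟩ := hIDL.1 _ hI
  rw [mul_comm] at hct
  rw [hω e A c b t he hF ht hct.symm]
  have h2 : ((t, 0) : V2 k) ∈ Lb c (A * f) := by
    refine ⟨?_, Ideal.zero_mem _⟩
    have h1 : t ∈ c * (e * (A * f)) := by
      rw [hct]; exact Ideal.mem_span_singleton_self t
    have h2 : c * (e * (A * f)) ≤ c * (A * f) :=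
      Ideal.mul_mono_right Ideal.mul_le_right
    exact h2 h1
  have h3 : ((t, 0) : V2 k) ≠ 0 := by
    intro h0
    exact ht (congrArg Prod.fst h0)
  have := hb c A b (t, 0) hc hF h2 h3
  rwa [nf_t0 hIDL hEMB hf e A c b t he hF.ne hc hct.symm] at this

theorem Vs_bd (hGRW : T_GRW k) (hD : tp D) (hf : f ≠ ⊥) (w : VV k) (hw : VF h f w) :
    ∃ (C : ℝ) (j : ℕ), 0 ≤ C ∧ ∀ A b, Fm f D A b → |Vs f w A b| ≤ C * nm A ^ j := by
  obtain ⟨C₂, hC₂, hb⟩ := hw.bd 2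
  obtain ⟨C, j, hC, hG⟩ := hGRW f D hf hD
  refine ⟨C₂ * C, j, by positivity, ?_⟩
  intro A b hF
  have hs := sumW h hGRW hD hf hF w hw
  have hs2 := sumY hGRW hD hf hF
  rw [Vs_eq w hs]
  have h1 : ∀ y : YY f A, ‖w (ci y.1.1) A b y.1.2‖ ≤ C₂ * (1 / ny f A b D y.1 ^ 2) := by
    rintro ⟨y, hy⟩
    have := hb (ci y.1) A b y.2 (ci_ne _) hF hy.1 hy.2.1
    rw [Real.norm_eq_abs]
    refine this.trans (le_of_eq ?_)
    change _ = C₂ * (1 / nf (ci y.1) A f (em b) (em D) y.2 ^ 2)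
    ring
  have h2 : |∑' y : YY f A, w (ci y.1.1) A b y.1.2| ≤
      ∑' y : YY f A, C₂ * (1 / ny f A b D y.1 ^ 2) := by
    rw [← Real.norm_eq_abs]
    exact tsum_of_norm_bounded (hs2.mul_left C₂).hasSum h1
  refine h2.trans ?_
  rw [tsum_mul_left, mul_assoc]
  refine mul_le_mul_of_nonneg_left ?_ hC₂
  have h3 : ∑' y : YY f A, 1 / ny f A b D y.1 ^ 2 =
      Vs f (fun a A b u => 1 / nf a A f (em b) (em D) u ^ 2) A b :=
    (Vs_eq (b₀ := b) (fun a A b u => 1 / nf a A f (em b) (em D) u ^ 2) hs2).symm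
  rw [h3]
  exact (hG A b hF).2

/-- the unfolded sum as a sum over the index set -/
theorem US_eq (hRSB : T_RSB k) (hSMM : T_SMM k) (hf : f ≠ ⊥) (ω : WW k) (F : FF k)
    (h0 : ∀ A b c, ω ⊥ A b c = 0)
    (hωb : ∀ B : ℕ, ∃ C : ℝ, 0 ≤ C ∧ ∀ e A b, e ≠ ⊥ → Fm f D A b →
      |ω e A b (q4 (b ^ 2 + D))| ≤ C / nm (e ^ 2 * A) ^ B)
    (hFb : ∃ (C : ℝ) (j : ℕ), 0 ≤ C ∧ ∀ A b, Fm f D A b → |F A b (q4 (b ^ 2 + D))| ≤ C * nm A ^ j) :
    Summable (fun x : XX f D => ω x.1.1.1 x.1.1.2 x.1.2 (q4 (x.1.2 ^ 2 + D)) *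
      F x.1.1.2 x.1.2 (q4 (x.1.2 ^ 2 + D))) ∧
    US f D ω F = ∑' x : XX f D, ω x.1.1.1 x.1.1.2 x.1.2 (q4 (x.1.2 ^ 2 + D)) *
      F x.1.1.2 x.1.2 (q4 (x.1.2 ^ 2 + D)) := by
  classical
  set T : (Ideal (𝓞 k) × Ideal (𝓞 k)) × 𝓞 k → ℝ := fun x =>
    ω x.1.1 x.1.2 x.2 (q4 (x.2 ^ 2 + D)) * F x.1.2 x.2 (q4 (x.2 ^ 2 + D)) with hT
  have hbs : ∀ p : Ideal (𝓞 k) × Ideal (𝓞 k), ∀ b, b ∉ bs f p.2 D →
      (XX f D).indicator T (p, b) = 0 := by
    intro p b hb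
    rw [Set.indicator_of_notMem]
    intro hx
    exact hb hx.2.2
  have hbs2 : ∀ p : Ideal (𝓞 k) × Ideal (𝓞 k), ∀ b ∈ bs f p.2 D,
      (XX f D).indicator T (p, b) = T (p, b) := by
    intro p b hb
    by_cases h1 : p.1 = ⊥
    · have e1 : T (p, b) = 0 := by
        rw [hT]
        simp only [h1, h0, zero_mul]
      rw [e1]
      exact Set.indicator_apply_eq_zero.mpr fun _ => e1
    · by_cases h2 : p.2 = ⊥
      · exfalso
        rw [h2] at hb
        unfold bs at hb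
        have h3 := (Finset.mem_filter.mp hb).1
        rw [Ideal.bot_mul, Ideal.mul_bot, hRSB.2.1] at h3
        exact absurd h3 (Finset.notMem_empty _)
      · exact Set.indicator_of_mem (show (p, b) ∈ XX f D from ⟨h1, h2, hb⟩) T
  obtain ⟨CF, j, hCF, hFb⟩ := hFb
  obtain ⟨CS, hCS, hcard⟩ := hSMM.2
  have hsum : Summable (fun p : Ideal (𝓞 k) × Ideal (𝓞 k) =>
      ∑ b ∈ bs f p.2 D, |(XX f D).indicator T (p, b)|) := by
    refine hSMM.1 _ (j + 1) ?_ ?_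
    · intro e A h1
      refine Finset.sum_eq_zero fun b hb => ?_
      rw [abs_eq_zero]
      refine Set.indicator_of_notMem ?_ T
      intro hx
      have := hx.1
      have := hx.2.1
      tauto
    · intro B
      obtain ⟨C, hC, hωB⟩ := hωb B
      refine ⟨C * CF * (CS * nm f), ?_⟩
      intro e A he hA
      have h1 : ∀ b ∈ bs f A D, |(XX f D).indicator T ((e, A), b)| ≤
          C / nm (e ^ 2 * A) ^ B * (CF * nm A ^ j) := by
        intro b hb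
        have hx : ((e, A), b) ∈ XX f D := ⟨he, hA, hb⟩
        have hF := XX_Fm hx
        rw [hbs2 (e, A) b hb, hT]
        change |ω e A b (q4 (b ^ 2 + D)) * F A b (q4 (b ^ 2 + D))| ≤ _
        rw [abs_mul]
        exact mul_le_mul (hωB e A b he hF) (hFb A b hF) (abs_nonneg _)
          (div_nonneg hC (pow_nonneg (Nat.cast_nonneg _) _))
      have h2 := Finset.sum_le_card_nsmul _ _ _ h1
      have h3 : 0 ≤ C / nm (e ^ 2 * A) ^ B * (CF * nm A ^ j) :=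
        mul_nonneg (div_nonneg hC (pow_nonneg (Nat.cast_nonneg _) _))
          (mul_nonneg hCF (pow_nonneg (Nat.cast_nonneg _) _))
      rw [abs_of_nonneg (Finset.sum_nonneg fun _ _ => abs_nonneg _)]
      refine h2.trans ?_
      rw [nsmul_eq_mul]
      have h4 := (hcard f A D hf).1
      refine (mul_le_mul_of_nonneg_right h4 h3).trans (le_of_eq ?_)
      ring
  have habs : Summable (fun x => |(XX f D).indicator T x|) := by
    rw [summable_prod_of_nonneg (fun x => abs_nonneg _)]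
    have e1 : ∀ p : Ideal (𝓞 k) × Ideal (𝓞 k), HasSum
        (fun b => |(XX f D).indicator T (p, b)|)
        (∑ b ∈ bs f p.2 D, |(XX f D).indicator T (p, b)|) := by
      intro p
      apply hasSum_sum_of_ne_finset_zero
      intro b hb
      rw [hbs p b hb, abs_zero]
    refine ⟨fun p => (e1 p).summable, ?_⟩
    refine hsum.congr fun p => ?_
    exact (e1 p).tsum_eq.symm
  have hs : Summable ((XX f D).indicator T) := habs.of_abs
  refine ⟨(summable_subtype_iff_indicator (s := XX f D)).mpr hs, ?_⟩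
  have e2 : ∑' x : XX f D, T x.1 = ∑' x, (XX f D).indicator T x := tsum_subtype (XX f D) T
  change _ = ∑' x : XX f D, T x.1
  rw [e2, hs.tsum_prod]
  unfold US
  refine tsum_congr fun p => ?_
  rw [tsum_eq_sum (s := bs f p.2 D) (fun b hb => hbs p b hb)]
  refine Finset.sum_congr rfl fun b hb => ?_
  rw [hbs2 p b hb]

end

end Pool.Agent.H89.NVK
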