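import Pool.Agent.H89.NVK.Bas

set_option autoImplicit false
set_option linter.unusedSectionVars false

open MeasureTheory Set Filter NumberField NumberField.InfinitePlace
open Pool.Agent.H65.CM4 Pool.Agent.H61.NVK Pool.Agent.H89.NV
open scoped Real

namespace Pool.Agent.H89.NVK

section

variable {k : Type} [Field k] [NumberField k] [IsTotallyReal k] {D : 𝓞 k} {K : Type} [Field K]
  [Algebra k K] (h : CK D K)

theorem mem_Lam (f A : Ideal (𝓞 k)) (b : 𝓞 k) (z : K) : z ∈ Lam h f A b ↔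
    ∃ x ∈ A * f, ∃ y : 𝓞 k, z = algebraMap (𝓞 k) K x + algebraMap (𝓞 k) K y * ww h b := by
  unfold Lam
  rw [Submodule.mem_sup]
  constructor
  · rintro ⟨x, hx, y, hy, rfl⟩
    obtain ⟨x', hx', rfl⟩ := Submodule.mem_map.mp hx
    obtain ⟨c, rfl⟩ := Submodule.mem_span_singleton.mp hy
    exact ⟨x', hx', c, by rw [Algebra.smul_def]; rfl⟩
  · rintro ⟨x, hx, y, rfl⟩
    exact ⟨_, Submodule.mem_map_of_mem hx, _, Submodule.smul_mem _ y
      (Submodule.mem_span_singleton_self _), by rw [Algebra.smul_def]; rfl⟩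

/-- the ideal of denominators of the imaginary parts -/
theorem exB (f : Ideal (𝓞 k)) (b₀ : 𝓞 k) (L : Submodule (𝓞 k) K)
    (hS : Stb h f b₀ L) (hFG : L.FG) (h1 : (1 : K) ∈ L) :
    ∃ B : Ideal (𝓞 k), B ≠ ⊥ ∧ (∀ x ∈ B • L, ∃ r : 𝓞 k, (r : k) = 2 * h.im x) ∧
      ∃ z ∈ B • L, h.im z = 1 / 2 := by
  classical
  -- common denominator
  obtain ⟨S, hSp⟩ := hFG
  have hden : ∃ t : 𝓞 k, t ≠ 0 ∧ ∀ x ∈ L, ∃ r : 𝓞 k, (r : k) = (t : k) * (2 * h.im x) := by
    have h2 : ∀ s : K, ∃ t : 𝓞 k, t ≠ 0 ∧ ∃ r : 𝓞 k, (r : k) = (t : k) * (2 * h.im s) := by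
      intro s
      obtain ⟨x, y, hy, hxy⟩ := IsFractionRing.div_surjective (A := 𝓞 k) (2 * h.im s)
      have hy0 : y ≠ 0 := nonZeroDivisors.ne_zero hy
      have hy0' : (y : k) ≠ 0 := fun h0 => hy0 (RingOfIntegers.ext h0)
      refine ⟨y, hy0, x, ?_⟩
      rw [← hxy]
      change (x : k) = (y : k) * ((x : k) / (y : k))
      field_simp
    choose τ hτ0 ρ hρ using h2
    refine ⟨∏ s ∈ S, τ s, Finset.prod_ne_zero_iff.mpr fun s _ => hτ0 s, ?_⟩
    intro x hx
    rw [← hSp] at hx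
    induction hx using Submodule.span_induction with
    | mem x hx =>
      refine ⟨(∏ s ∈ S.erase x, τ s) * ρ x, ?_⟩
      have e1 : (∏ s ∈ S, τ s) = (∏ s ∈ S.erase x, τ s) * τ x :=
        (Finset.prod_erase_mul S τ hx).symm
      rw [e1]
      change ((∏ s ∈ S.erase x, τ s : 𝓞 k) : k) * (ρ x : k) =
        ((∏ s ∈ S.erase x, τ s : 𝓞 k) : k) * (τ x : k) * (2 * h.im x)
      rw [hρ]; ring
    | zero => exact ⟨0, by rw [map_zero, mul_zero, mul_zero]; rfl⟩
    | add x y _ _ hx hy =>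
      obtain ⟨r, hr⟩ := hx
      obtain ⟨s, hs⟩ := hy
      refine ⟨r + s, ?_⟩
      rw [map_add]
      change (r : k) + (s : k) = _
      rw [hr, hs]; ring
    | smul a x _ hx =>
      obtain ⟨r, hr⟩ := hx
      refine ⟨a * r, ?_⟩
      rw [smK, im_mul_am]
      change (a : k) * (r : k) = _
      rw [hr]; ring
  obtain ⟨t, ht0, ht⟩ := hden
  have ht0' : (t : k) ≠ 0 := fun h0 => ht0 (RingOfIntegers.ext h0)
  -- the ideal `J = t (2 im L)`
  let J : Ideal (𝓞 k) :=
    { carrier := {r | ∃ x ∈ L, (r : k) = (t : k) * (2 * h.im x)}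
      zero_mem' := ⟨0, L.zero_mem, by rw [map_zero, mul_zero, mul_zero]; rfl⟩
      add_mem' := by
        rintro a b ⟨x, hx, hxa⟩ ⟨y, hy, hyb⟩
        refine ⟨x + y, L.add_mem hx hy, ?_⟩
        rw [map_add]
        change (a : k) + (b : k) = _
        rw [hxa, hyb]; ring
      smul_mem' := by
        rintro c a ⟨x, hx, hxa⟩
        refine ⟨c • x, L.smul_mem c hx, ?_⟩
        rw [smK, im_mul_am]
        change (c : k) * (a : k) = _
        rw [hxa]; ring }
  have hw : ww h b₀ ∈ L := by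
    have := hS 1 h1 1 (fi_one f)
    rw [map_one, one_mul, mul_one] at this
    exact this
  have htJ : t ∈ J := by
    refine ⟨ww h b₀, hw, ?_⟩
    rw [im_ww]; ring
  obtain ⟨B, hB⟩ := (Ideal.dvd_span_singleton).mpr htJ
  have hB0 : B ≠ ⊥ := by
    rintro rfl
    rw [Ideal.mul_bot, Ideal.span_singleton_eq_bot] at hB
    exact ht0 hB
  refine ⟨B, hB0, ?_, ?_⟩
  · intro x hx
    refine Submodule.smul_induction_on (p := fun x => ∃ r : 𝓞 k, (r : k) = 2 * h.im x) hx ?_ ?_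
    · intro r hr y hy
      obtain ⟨s, hs⟩ := ht y hy
      have hsJ : s ∈ J := ⟨y, hy, hs⟩
      have h3 : s * r ∈ Ideal.span {t} := by
        rw [hB]
        exact Ideal.mul_mem_mul hsJ hr
      obtain ⟨q, hq⟩ := Ideal.mem_span_singleton'.mp h3
      refine ⟨q, ?_⟩
      have h5 : ((q * t : 𝓞 k) : k) = ((s * r : 𝓞 k) : k) := by rw [hq]
      change (q : k) * (t : k) = (s : k) * (r : k) at h5
      rw [smK, im_mul_am]
      rw [hs] at h5
      have : (q : k) * (t : k) = (2 * ((r : k) * h.im y)) * (t : k) := by rw [h5]; ring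
      exact mul_right_cancel₀ ht0' this
    · intro x y hx hy
      obtain ⟨r, hr⟩ := hx
      obtain ⟨s, hs⟩ := hy
      refine ⟨r + s, ?_⟩
      rw [map_add]
      change (r : k) + (s : k) = _
      rw [hr, hs]; ring
  · have h6 : t ∈ J * B := by rw [← hB]; exact Ideal.mem_span_singleton_self t
    have h7 : ∀ y ∈ J * B, ∃ z ∈ B • L, (y : k) = (t : k) * (2 * h.im z) := by
      intro y hy
      induction hy using Submodule.mul_induction_on' with
      | mem_mul_mem m hm n hn =>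
        obtain ⟨x, hx, hxm⟩ := hm
        refine ⟨n • x, Submodule.smul_mem_smul hn hx, ?_⟩
        rw [smK, im_mul_am]
        change (m : k) * (n : k) = _
        rw [hxm]; ring
      | add a ha b hb iha ihb =>
        obtain ⟨x, hx, hxa⟩ := iha
        obtain ⟨y, hy, hyb⟩ := ihb
        refine ⟨x + y, Submodule.add_mem _ hx hy, ?_⟩
        rw [map_add]
        change (a : k) + (b : k) = _
        rw [hxa, hyb]; ring
    obtain ⟨z, hz, hzt⟩ := h7 t h6
    refine ⟨z, hz, ?_⟩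
    have : (t : k) * 1 = (t : k) * (2 * h.im z) := by rw [mul_one]; exact hzt
    have h8 := mul_left_cancel₀ ht0' this
    linear_combination (-1 / 2 : k) * h8

theorem ne_bot_zero {t : 𝓞 k} (ht0 : t ≠ 0) : (t : k) ≠ 0 :=
  fun h0 => ht0 (RingOfIntegers.ext h0)

/-- a number which preserves an ideal is an integer -/
theorem intOf (C : Ideal (𝓞 k)) (hC : C ≠ ⊥) (x : k) (hx : ∀ t ∈ C, ∃ c ∈ C, (c : k) = x * t) :
    ∃ r : 𝓞 k, (r : k) = x := by
  obtain ⟨p, q, hq, hpq⟩ := IsFractionRing.div_surjective (A := 𝓞 k) x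
  have hq0 : q ≠ 0 := nonZeroDivisors.ne_zero hq
  have hpq' : (p : k) / (q : k) = x := hpq
  have h1 : Ideal.span {p} * C ≤ Ideal.span {q} * C := by
    rw [Ideal.mul_le]
    intro r hr s hs
    obtain ⟨a, rfl⟩ := Ideal.mem_span_singleton'.mp hr
    obtain ⟨c, hc, hcx⟩ := hx s hs
    have h4 : p * s = q * c := by
      apply RingOfIntegers.ext
      change (p : k) * (s : k) = (q : k) * (c : k)
      rw [hcx, ← hpq']
      have := ne_bot_zero hq0
      field_simp
    rw [mul_assoc, h4]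
    exact Ideal.mul_mem_left _ a (Ideal.mul_mem_mul (Ideal.mem_span_singleton_self q) hc)
  have hC0 : C ≠ 0 := hC
  have h7 : Ideal.span {q} * C ∣ Ideal.span {p} * C := Ideal.dvd_iff_le.mpr h1
  have h8 : Ideal.span {q} ∣ Ideal.span {p} := (mul_dvd_mul_iff_right hC0).mp h7
  obtain ⟨r, hr⟩ := Ideal.mem_span_singleton'.mp (Ideal.dvd_span_singleton.mp h8)
  refine ⟨r, ?_⟩
  rw [← hpq', ← hr]
  change (r : k) = ((r : k) * (q : k)) / (q : k)
  have := ne_bot_zero hq0
  field_simp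

theorem Stb_smul (f : Ideal (𝓞 k)) (b₀ : 𝓞 k) (B : Ideal (𝓞 k)) (L : Submodule (𝓞 k) K)
    (hS : Stb h f b₀ L) : Stb h f b₀ (B • L) := by
  intro x hx φ hφ
  refine Submodule.smul_induction_on (p := fun x => algebraMap k K φ *
    ((algebraMap (𝓞 k) K b₀ + h.s) / 2 * x) ∈ B • L) hx ?_ ?_
  · intro r hr y hy
    have e : algebraMap k K φ * ((algebraMap (𝓞 k) K b₀ + h.s) / 2 * (r • y)) =
        r • (algebraMap k K φ * ((algebraMap (𝓞 k) K b₀ + h.s) / 2 * y)) := by
      rw [Algebra.smul_def, Algebra.smul_def]; ring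
    rw [e]
    exact Submodule.smul_mem_smul hr (hS y hy φ hφ)
  · intro x y hx hy
    rw [mul_add, mul_add]
    exact Submodule.add_mem _ hx hy

theorem Lam_congr (f A : Ideal (𝓞 k)) (b j : 𝓞 k) (hj : j ∈ A * f) :
    Lam h f A (b + 2 * j) = Lam h f A b := by
  have e : ww h (b + 2 * j) = ww h b + algebraMap (𝓞 k) K j := by
    unfold ww
    rw [map_add, map_mul, map_ofNat]
    have := two_ne k K
    field_simp
    ring
  ext z
  rw [mem_Lam, mem_Lam]
  constructor
  · rintro ⟨x, hx, y, rfl⟩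
    refine ⟨x + y * j, Ideal.add_mem _ hx (Ideal.mul_mem_left _ y hj), y, ?_⟩
    rw [e, map_add, map_mul]; ring
  · rintro ⟨x, hx, y, rfl⟩
    refine ⟨x - y * j, Ideal.sub_mem _ hx (Ideal.mul_mem_left _ y hj), y, ?_⟩
    rw [e, map_sub, map_mul]; ring

theorem ww_sq (b : 𝓞 k) : ww h b * ww h b = algebraMap (𝓞 k) K b * ww h b -
    algebraMap k K (((b : k) ^ 2 + D) / 4) := by
  apply eq_of h
  · rw [re_mul, map_sub, am, re_mul_am, re_am, re_ww, im_ww]; ring
  · rw [im_mul, map_sub, am, im_mul_am, im_am, re_ww, im_ww]; ring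

theorem pf_PAR (hRSB : T_RSB k) (hIDL : T_IDL k) (hLMB : T_LMB k) : T_PAR k := by
  classical
  intro D hD K _ _ h f b₀ L hf hF hS hFG h1
  obtain ⟨B, hB0, hB1, z, hz, hzi⟩ := exB h f b₀ L hS hFG h1
  have hS' : Stb h f b₀ (B • L) := Stb_smul h f b₀ B L hS
  set L' : Submodule (𝓞 k) K := B • L with hL'
  let C : Ideal (𝓞 k) := L'.comap (Algebra.linearMap (𝓞 k) K)
  have hmC : ∀ c : 𝓞 k, c ∈ C ↔ algebraMap (𝓞 k) K c ∈ L' := fun c => Iff.rfl
  have hk : ∀ t : k, algebraMap k K t ∈ L' → ∃ c ∈ C, c ∈ f ∧ (c : k) = t := by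
    intro t ht
    have h2 : ∀ φ : k, fi f φ → ∃ c ∈ (⊤ : Ideal (𝓞 k)), (c : k) = φ * t := by
      intro φ hφ
      obtain ⟨r, hr⟩ := hB1 _ (hS' _ ht φ hφ)
      refine ⟨r, trivial, ?_⟩
      rw [hr]
      change 2 * h.im (algebraMap k K φ * (ww h b₀ * algebraMap k K t)) = _
      rw [im_mul_am, im_mul, im_ww, re_am, im_am]; ring
    obtain ⟨c, hc, hct⟩ := refl_mem hIDL f ⊤ hf t h2
    rw [Ideal.top_mul] at hc
    refine ⟨c, ?_, hc, hct⟩
    rw [hmC, am, hct]
    exact ht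
  have hCf : C ≤ f := by
    intro c hc
    obtain ⟨c', -, hc'f, hcc⟩ := hk c (by rw [← am]; exact hc)
    have : c' = c := RingOfIntegers.ext hcc
    rwa [← this]
  have hBC : B ≤ C := by
    intro r hr
    have h2 : r • (1 : K) ∈ L' := Submodule.smul_mem_smul hr h1
    rw [hmC]
    rwa [Algebra.smul_def, mul_one] at h2
  have hC0 : C ≠ ⊥ := fun h0 => hB0 (le_bot_iff.mp (h0 ▸ hBC))
  obtain ⟨A, hA⟩ := Ideal.dvd_iff_le.mpr hCf
  rw [mul_comm] at hA
  have hA0 : A ≠ ⊥ := by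
    rintro rfl
    exact hC0 (by rw [hA, Ideal.bot_mul])
  obtain ⟨e, he⟩ := Ideal.dvd_iff_le.mpr hBC
  have he0 : e ≠ ⊥ := by
    rintro rfl
    exact hB0 (by rw [he, Ideal.mul_bot])
  -- the middle coefficient
  set ρ : k := (b₀ : k) / 2 - h.re z with hρ
  have hwz : ∀ t : k, algebraMap k K t * (ww h b₀ - z) = algebraMap k K (t * ρ) := by
    intro t
    apply eq_of h
    · rw [re_mul_am, map_sub, re_ww, re_am]
    · rw [im_mul_am, map_sub, im_ww, hzi, im_am]; ring
  have hρf : ∃ r ∈ f, (r : k) = ρ := by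
    have h2 : ∀ φ : k, fi f φ → ∃ c ∈ (⊤ : Ideal (𝓞 k)), (c : k) = φ * ρ := by
      intro φ hφ
      obtain ⟨r, hr⟩ := intOf C hC0 (φ * ρ) (by
        intro t ht
        obtain ⟨s, hs⟩ := hφ t (hCf ht)
        have h3 := hS' _ ((hmC t).mp ht) φ hφ
        have h4 : s • z ∈ L' := Submodule.smul_mem _ s hz
        have h5 := Submodule.sub_mem _ h3 h4
        have e1 : algebraMap k K φ * ((algebraMap (𝓞 k) K b₀ + h.s) / 2 *
            algebraMap (𝓞 k) K t) - s • z = algebraMap k K (φ * ρ * t) := by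
          rw [smK, hs]
          have e2 := hwz (φ * t)
          have e3 : algebraMap k K (φ * ρ * t) = algebraMap k K (φ * t * ρ) := by
            congr 1; ring
          rw [e3, ← e2]
          change algebraMap k K φ * (ww h b₀ * algebraMap (𝓞 k) K t) - _ = _
          rw [am, map_mul]; ring
        rw [e1] at h5
        obtain ⟨c, hc, -, hct⟩ := hk _ h5
        exact ⟨c, hc, hct⟩)
      exact ⟨r, trivial, hr⟩
    obtain ⟨c, hc, hct⟩ := refl_mem hIDL f ⊤ hf ρ h2
    rw [Ideal.top_mul] at hc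
    exact ⟨c, hc, hct⟩
  obtain ⟨r, hrf, hrρ⟩ := hρf
  set b : 𝓞 k := b₀ - 2 * r with hb
  have hbf : b ∈ f := f.sub_mem hF.mem (f.mul_mem_left 2 hrf)
  have hbk : (b : k) = b₀ - 2 * ρ := by
    rw [hb, ← hrρ]
    rfl
  have hzb : z = ww h b := by
    apply eq_of h
    · rw [re_ww, hbk, hρ]; ring
    · rw [im_ww, hzi]
  have hc4 : ∃ c ∈ C * f, (c : k) = ((b : k) ^ 2 + D) / 4 := by
    refine refl_mem hIDL f C hf _ ?_
    intro φ hφ
    obtain ⟨s, hs⟩ := hφ r hrf
    obtain ⟨q, hq⟩ := hφ b hbf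
    have h3 := hS' _ hz φ hφ
    have h4 : s • z ∈ L' := Submodule.smul_mem _ _ hz
    have h5 : q • z ∈ L' := Submodule.smul_mem _ _ hz
    have h6 := Submodule.add_mem _ (Submodule.sub_mem _ h4 h3) h5
    have e1 : s • z - algebraMap k K φ * ((algebraMap (𝓞 k) K b₀ + h.s) / 2 * z) + q • z =
        algebraMap k K (φ * (((b : k) ^ 2 + D) / 4)) := by
      have e2 := hwz φ
      have e3 := ww_sq h b
      rw [← hzb] at e3
      rw [smK, smK, hs, hq, hrρ, ← e2]
      change _ - algebraMap k K φ * (ww h b₀ * z) + _ = _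
      rw [am] at e3
      rw [map_mul, map_mul]
      linear_combination (-algebraMap k K φ) * e3
    rw [e1] at h6
    obtain ⟨c, hc, -, hct⟩ := hk _ h6
    exact ⟨c, hc, hct⟩
  obtain ⟨c, hcC, hck⟩ := hc4
  have hdis : ∀ x ∈ A * f, (b + 2 * x) ^ 2 + D ∈ ni k 4 * (A * f ^ 2) := by
    intro x hx
    have h7 : (b + 2 * x) ^ 2 + D = 4 * (c + (b * x + x ^ 2)) := by
      apply RingOfIntegers.ext
      change ((b : k) + 2 * (x : k)) ^ 2 + (D : k) = 4 * ((c : k) + ((b : k) * x + (x : k) ^ 2))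
      rw [hck]; ring
    rw [h7, ni]
    have e3 : A * f ^ 2 = A * f * f := by rw [pow_two, mul_assoc]
    have h9 : x * b ∈ A * f * f := Ideal.mul_mem_mul hx hbf
    have hAff : A * f ≤ f := Ideal.mul_le_right
    have hxf : x ∈ f := hAff hx
    have h10 : x * x ∈ A * f * f := Ideal.mul_mem_mul hx hxf
    have h8 : c + (b * x + x ^ 2) ∈ A * f ^ 2 := by
      rw [e3, pow_two x, mul_comm b x]
      rw [hA] at hcC
      exact Ideal.add_mem _ hcC (Ideal.add_mem _ h9 h10)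
    have h11 : (4 : 𝓞 k) ∈ Ideal.span {((4 : ℕ) : 𝓞 k)} := by
      rw [Nat.cast_ofNat]; exact Ideal.mem_span_singleton_self 4
    exact Ideal.mul_mem_mul h11 h8
  have hAf0 : ni k 2 * (A * f) ≠ ⊥ := by
    rw [← hA, ni]
    intro h0
    rcases Ideal.mul_eq_bot.mp h0 with h9 | h9
    · rw [Ideal.span_singleton_eq_bot] at h9
      norm_num at h9
    · exact hC0 h9
  have hLam : ∀ x : 𝓞 k, x ∈ A * f → L' = Lam h f A (b + 2 * x) := by
    intro x hx
    rw [Lam_congr h f A b x hx]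
    ext y
    rw [mem_Lam]
    constructor
    · intro hy
      obtain ⟨t, ht⟩ := hB1 y hy
      have h8 : y - t • z ∈ L' := Submodule.sub_mem _ hy (Submodule.smul_mem _ _ hz)
      have e2 : y - t • z = algebraMap k K (h.re (y - t • z)) := by
        apply eq_of h
        · rw [re_am]
        · rw [im_am, map_sub, smK, im_mul_am, hzi, ht]; ring
      rw [e2] at h8
      obtain ⟨d, hd, -, hdt⟩ := hk _ h8
      refine ⟨d, by rw [← hA]; exact hd, t, ?_⟩
      rw [← hzb, am d, hdt, ← e2, Algebra.smul_def]; ring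
    · rintro ⟨x, hx, t, rfl⟩
      rw [← hA] at hx
      refine Submodule.add_mem _ ((hmC x).mp hx) ?_
      rw [← hzb, ← Algebra.smul_def]
      exact Submodule.smul_mem _ _ hz
  have hBe : e * (A * f) = B := by rw [← hA, mul_comm, ← he]
  obtain ⟨b₁, ⟨hb₁, hbb⟩, -⟩ := (hRSB.1 _ hAf0).1 b
  rw [ni] at hbb
  obtain ⟨x, hx, hxb⟩ := Ideal.mem_span_singleton_mul.mp hbb
  have hb₁' : b₁ = b + 2 * (-x) := by
    have : ((2 : ℕ) : 𝓞 k) * x = b - b₁ := hxb
    push_cast at this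
    linear_combination this
  have hxm : -x ∈ A * f := Ideal.neg_mem_iff _ |>.mpr hx
  refine ⟨(e, A, b₁), ⟨he0, hA0, ?_, ?_⟩, ?_⟩
  · change b₁ ∈ bs f A D
    unfold bs
    refine Finset.mem_filter.mpr ⟨hb₁, ?_, ?_⟩
    · rw [hb₁']
      have hAff : A * f ≤ f := Ideal.mul_le_right
      exact f.add_mem hbf (f.mul_mem_left 2 (hAff hxm))
    · rw [hb₁']
      exact hdis _ hxm
  · change hom (e * (A * f)) 1 L = Lam h f A b₁
    rw [hom_one, hBe, hb₁', ← hLam _ hxm]
  · rintro ⟨e', A', b'⟩ ⟨he', hA', hb', hL2⟩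
    change e' ≠ ⊥ at he'
    change A' ≠ ⊥ at hA'
    change b' ∈ bs f A' D at hb'
    change hom (e' * (A' * f)) 1 L = Lam h f A' b' at hL2
    unfold bs at hb'
    obtain ⟨hb'1, hb'2, hb'3⟩ := Finset.mem_filter.mp hb'
    have hF' : Fm f D A' b' := ⟨hA', hb'2, hb'3⟩
    have hF1 : Fm f D A (b + 2 * 0) := ⟨hA0, by
      rw [mul_zero, add_zero]; exact hbf, hdis 0 (Ideal.zero_mem _)⟩
    rw [mul_zero, add_zero] at hF1
    have hL1 : hom (e * (A * f)) 1 L = Lam h f A b := by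
      have := hLam 0 (Ideal.zero_mem _)
      rw [mul_zero, add_zero] at this
      rw [hom_one, hBe, ← this]
    have hcomm : hom (e' * (A' * f)) 1 (Lam h f A b) = hom (e * (A * f)) 1 (Lam h f A' b') := by
      rw [← hL1, ← hL2, hom_one, hom_one, hom_one, hom_one, ← Submodule.mul_smul,
        ← Submodule.mul_smul, mul_comm]
    have hsub : ∀ (I J : Ideal (𝓞 k)) (A₁ A₂ : Ideal (𝓞 k)) (b₁ b₂ : 𝓞 k), Fm f D A₁ b₁ →
        Fm f D A₂ b₂ → hom I 1 (Lam h f A₁ b₁) = hom J 1 (Lam h f A₂ b₂) → I ≤ J := by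
      intro I J A₁ A₂ b₁ b₂ h1 h2 h12 y hy
      have h3 : zz h b₁ (0, y) ∈ hom I 1 (Lam h f A₁ b₁) := by
        rw [(hLMB D hD K h f I A₁ b₁ hf h1).1]
        exact ⟨(0, y), ⟨Ideal.zero_mem _, hy⟩, rfl⟩
      rw [h12, (hLMB D hD K h f J A₂ b₂ hf h2).1] at h3
      obtain ⟨u, hu, huz⟩ := h3
      have h4 := congrArg h.im huz
      have e4 : ∀ (b : 𝓞 k) (u : V2 k), h.im (zz h b u) = (u.2 : k) / 2 := by
        intro b u
        change h.im (algebraMap (𝓞 k) K u.1 + algebraMap (𝓞 k) K u.2 * ww h b) = _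
        rw [map_add, am, am, im_am, im_mul_am, im_ww]; ring
      rw [e4, e4] at h4
      have h5 : (y : k) = (u.2 : k) := by
        linear_combination 2 * h4
      have h6 : y = u.2 := RingOfIntegers.ext h5
      rw [h6]
      exact hu.2
    have hBB : e' * (A' * f) = e * (A * f) := le_antisymm
      (hsub _ _ _ _ _ _ hF1 hF' hcomm) (hsub _ _ _ _ _ _ hF' hF1 hcomm.symm)
    have hLL : Lam h f A b = Lam h f A' b' := by
      rw [← hL1, ← hL2, hBB]
    have hint : ∀ (A₁ A₂ : Ideal (𝓞 k)) (b₁ b₂ : 𝓞 k), Lam h f A₁ b₁ = Lam h f A₂ b₂ →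
        A₁ * f ≤ A₂ * f := by
      intro A₁ A₂ b₁ b₂ h12 x hx
      have h3 : algebraMap (𝓞 k) K x ∈ Lam h f A₁ b₁ := by
        rw [mem_Lam]
        exact ⟨x, hx, 0, by rw [map_zero, zero_mul, add_zero]⟩
      rw [h12, mem_Lam] at h3
      obtain ⟨x', hx', y, hxy⟩ := h3
      have h4 := congrArg h.im hxy
      rw [map_add, am, am, am, im_am, im_am, im_mul_am, im_ww] at h4
      have h5 := congrArg h.re hxy
      rw [map_add, am, am, am, re_am, re_am, re_mul_am, re_ww] at h5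
      have h6 : (y : k) = 0 := by linear_combination (-2) * h4
      rw [h6, zero_mul, add_zero] at h5
      have h7 : x = x' := RingOfIntegers.ext h5
      rw [h7]
      exact hx'
    have hAA : A * f = A' * f := le_antisymm (hint _ _ _ _ hLL) (hint _ _ _ _ hLL.symm)
    have hf0 : f ≠ 0 := hf
    have hAA' : A' = A := (mul_right_cancel₀ hf0 hAA).symm
    subst hAA'
    have hAf : A' * f ≠ 0 := by
      rw [← hA]; exact hC0
    have hee : e' = e := mul_right_cancel₀ hAf hBB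
    subst hee
    have hbb' : b' = b₁ := by
      have h3 : ww h b' ∈ Lam h f A' b := by
        rw [hLL, mem_Lam]
        exact ⟨0, Ideal.zero_mem _, 1, by rw [map_zero, map_one, one_mul, zero_add]⟩
      rw [mem_Lam] at h3
      obtain ⟨x', hx', y, hxy⟩ := h3
      have h4 := congrArg h.im hxy
      rw [map_add, am, am, im_am, im_mul_am, im_ww, im_ww] at h4
      have h5 := congrArg h.re hxy
      rw [map_add, am, am, re_am, re_mul_am, re_ww, re_ww] at h5
      have h6 : (y : k) = 1 := by linear_combination (-2) * h4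
      rw [h6, one_mul] at h5
      have h7 : b - b' = 2 * (-x') := by
        apply RingOfIntegers.ext
        change (b : k) - (b' : k) = 2 * (-(x' : k))
        linear_combination (-2) * h5
      have h8 : b - b' ∈ ni k 2 * (A' * f) := by
        rw [h7, ni]
        refine Ideal.mul_mem_mul ?_ (Ideal.neg_mem_iff _ |>.mpr hx')
        rw [Nat.cast_ofNat]; exact Ideal.mem_span_singleton_self 2
      exact ((hRSB.1 _ hAf0).1 b).unique ⟨hb'1, h8⟩ ⟨hb₁, hbb⟩
    rw [hbb']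

end

end Pool.Agent.H89.NVK
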